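import Mathlib

set_option autoImplicit false
open MeasureTheory Set Filter Topology Metric

namespace Pool.Agent.R223.NetDefs

/-- the Euclidean plane -/
abbrev Pl : Type := EuclideanSpace ℝ (Fin 2)

/-- `u ∈ C^∞_c(Ω)` -/
def IsTest (Ω : Set Pl) (u : Pl → ℝ) : Prop :=
  ContDiff ℝ (⊤ : ℕ∞) u ∧ HasCompactSupport u ∧ tsupport u ⊆ Ω

/-- the integral `∫ u df` against a signed measure `f` -/
noncomputable def pair (f : SignedMeasure Pl) (u : Pl → ℝ) : ℝ :=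
  (∫ x, u x ∂f.toJordanDecomposition.posPart) - ∫ x, u x ∂f.toJordanDecomposition.negPart

/-- `1/2 ∫_Ω |∇u|² dx + m/2 ∫_Ω |∇u|² dμ - ∫ u df` -/
noncomputable def J (Ω : Set Pl) (f : SignedMeasure Pl) (m : ℝ) (μ : Measure Pl) (u : Pl → ℝ) : ℝ :=
  1 / 2 * (∫ x in Ω, ‖gradient u x‖ ^ 2) + m / 2 * (∫ x in Ω, ‖gradient u x‖ ^ 2 ∂μ) - pair f u

/-- the energy `𝓔_f(μ)`, an extended real number -/
noncomputable def Energy (Ω : Set Pl) (f : SignedMeasure Pl) (m : ℝ) (μ : Measure Pl) : EReal :=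
  ⨅ u : {u : Pl → ℝ // IsTest Ω u}, ((J Ω f m μ u.1 : ℝ) : EReal)

/-- `H¹⌞S` -/
noncomputable def Net (S : Set Pl) : Measure Pl := (Measure.hausdorffMeasure 1).restrict S

/-- the class `𝓐_L`: closed connected sets `S ⊆ Ω` with `H¹(S) ≤ L` -/
def Adm (Ω : Set Pl) (L : ℝ) (S : Set Pl) : Prop :=
  IsClosed S ∧ IsConnected S ∧ S ⊆ Ω ∧ (Measure.hausdorffMeasure 1 : Measure Pl) S ≤ ENNReal.ofReal L

/-- a larger class: relatively closed subsets of `Ω`, connected or not, with `H¹(S) ≤ L` -/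
def AdmRel (Ω : Set Pl) (L : ℝ) (S : Set Pl) : Prop :=
  (∃ C : Set Pl, IsClosed C ∧ S = C ∩ Ω) ∧
    (Measure.hausdorffMeasure 1 : Measure Pl) S ≤ ENNReal.ofReal L

/-- `μ` is a positive finite measure on `closure Ω` in the weak* closure of `{H¹⌞S : S ∈ 𝓐_L}` -/
def Relaxed (Ω : Set Pl) (L : ℝ) (μ : Measure Pl) : Prop :=
  IsFiniteMeasure μ ∧ μ (closure Ω)ᶜ = 0 ∧ ∀ (G : Finset C(Pl, ℝ)) (ε : ℝ), 0 < ε →
    ∃ S : Set Pl, Adm Ω L S ∧ ∀ g ∈ G, |(∫ x, g x ∂(Net S)) - ∫ x, g x ∂μ| < ε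

/-- weak* convergence of `H¹⌞S_n` to `μ` -/
def WeakConv (S : ℕ → Set Pl) (μ : Measure Pl) : Prop :=
  ∀ g : C(Pl, ℝ), Tendsto (fun n => ∫ x, g x ∂(Net (S n))) atTop (𝓝 (∫ x, g x ∂μ))

end Pool.Agent.R223.NetDefs
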