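import Mathlib
import Pool.Agent.R223.Net.Defs

set_option autoImplicit false
open MeasureTheory Set Filter Topology Metric

namespace Pool.Agent.R223.Net
open Pool.Agent.R223.NetDefs

local instance : Fact (Module.finrank ℝ Pl = 2) := ⟨by simp [Pl]⟩

noncomputable def e0 : Pl := EuclideanSpace.single 0 1
noncomputable def e1 : Pl := EuclideanSpace.single 1 1

theorem e0_norm : ‖e0‖ = 1 := by simp [e0]
theorem e1_norm : ‖e1‖ = 1 := by simp [e1]

/-- unit speed line -/
noncomputable def seg (p e : Pl) (s : ℝ) : Pl := p + s • e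

theorem seg_iso (p e : Pl) (he : ‖e‖ = 1) : Isometry (seg p e) := by
  refine Isometry.of_dist_eq fun s t => ?_
  unfold seg
  rw [dist_add_left, dist_eq_norm, ← sub_smul, norm_smul, he, mul_one, Real.dist_eq, Real.norm_eq_abs]

theorem seg_cont (p e : Pl) : Continuous (seg p e) := by unfold seg; fun_prop

theorem seg_emb (p e : Pl) (he : ‖e‖ = 1) : MeasurableEmbedding (seg p e) :=
  (seg_iso p e he).isClosedEmbedding.measurableEmbedding

theorem net_seg (p e : Pl) (he : ‖e‖ = 1) (I : Set ℝ) :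
    Net (seg p e '' I) = (volume.restrict I).map (seg p e) := by
  have h1 := (seg_iso p e he).map_hausdorffMeasure (d := 1) (Or.inl zero_le_one)
  rw [hausdorffMeasure_real] at h1
  have h2 := (seg_emb p e he).restrict_map volume (seg p e '' I)
  rw [h1] at h2
  rw [preimage_image_eq _ (seg_iso p e he).injective] at h2
  unfold Net
  rw [← h2, Measure.restrict_restrict_of_subset (image_subset_range _ _)]

theorem int_seg (p e : Pl) (he : ‖e‖ = 1) (I : Set ℝ) (h : Pl → ℝ) :
    ∫ x, h x ∂(Net (seg p e '' I)) = ∫ s in I, h (seg p e s) := by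
  rw [net_seg p e he, (seg_emb p e he).integral_map]

theorem meas_seg (p e : Pl) (he : ‖e‖ = 1) (I : Set ℝ) :
    (Measure.hausdorffMeasure 1 : Measure Pl) (seg p e '' I) = volume I := by
  rw [(seg_iso p e he).hausdorffMeasure_image (Or.inl zero_le_one), hausdorffMeasure_real]

/-- the horizontal unit segment -/
noncomputable def S0 : Set Pl := seg 0 e0 '' Icc 0 1

theorem S0_compact : IsCompact S0 := isCompact_Icc.image (seg_cont _ _)

theorem seg_e0_0 (p : Pl) (s : ℝ) : (seg p e0 s) 0 = p 0 + s := by simp [seg, e0]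
theorem seg_e0_1 (p : Pl) (s : ℝ) : (seg p e0 s) 1 = p 1 := by simp [seg, e0]
theorem seg_e1_0 (p : Pl) (s : ℝ) : (seg p e1 s) 0 = p 0 := by simp [seg, e1]
theorem seg_e1_1 (p : Pl) (s : ℝ) : (seg p e1 s) 1 = p 1 + s := by simp [seg, e1]

instance : Nonempty (Ioo (0:ℝ) 1) := ⟨⟨1 / 2, by norm_num⟩⟩

/-- the dense sequence of load points -/
noncomputable def qpt (i : ℕ) : ℝ := (TopologicalSpace.denseSeq (Ioo (0:ℝ) 1) i : ℝ)

theorem qpt_mem (i : ℕ) : 0 < qpt i ∧ qpt i < 1 := (TopologicalSpace.denseSeq (Ioo (0:ℝ) 1) i).2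

noncomputable def Ppt (i : ℕ) : Pl := seg 0 e0 (qpt i)

theorem Ppt_mem (i : ℕ) : Ppt i ∈ S0 := ⟨qpt i, ⟨(qpt_mem i).1.le, (qpt_mem i).2.le⟩, rfl⟩

theorem Ppt_dense (C : Set Pl) (hC : IsClosed C) (h : ∀ i, Ppt i ∈ C) : S0 ⊆ C := by
  have h1 : IsClosed (seg 0 e0 ⁻¹' C) := hC.preimage (seg_cont _ _)
  have h2 : Ioo (0:ℝ) 1 ⊆ seg 0 e0 ⁻¹' C := by
    have h3 : IsClosed ((fun x : Ioo (0:ℝ) 1 => (x : ℝ)) ⁻¹' (seg 0 e0 ⁻¹' C)) :=
      h1.preimage continuous_subtype_val
    have h4 : (fun x : Ioo (0:ℝ) 1 => (x : ℝ)) ⁻¹' (seg 0 e0 ⁻¹' C) = univ := by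
      refine eq_univ_of_univ_subset ?_
      rw [← (TopologicalSpace.denseRange_denseSeq (Ioo (0:ℝ) 1)).closure_range]
      refine h3.closure_subset_iff.2 ?_
      rintro _ ⟨i, rfl⟩
      exact h i
    intro x hx
    have : (⟨x, hx⟩ : Ioo (0:ℝ) 1) ∈ (fun x : Ioo (0:ℝ) 1 => (x : ℝ)) ⁻¹' (seg 0 e0 ⁻¹' C) := by
      rw [h4]; trivial
    exact this
  have h5 : Icc (0:ℝ) 1 ⊆ seg 0 e0 ⁻¹' C := by
    rw [← closure_Ioo (by norm_num : (0:ℝ) ≠ 1)]
    exact h1.closure_subset_iff.2 h2
  rintro _ ⟨s, hs, rfl⟩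
  exact h5 hs

/-- the positive part of the load -/
noncomputable def fpos : Measure Pl := Measure.sum fun i : ℕ => ((2:ENNReal)⁻¹ ^ (i + 1)) • Measure.dirac (Ppt i)

theorem fpos_prob : IsProbabilityMeasure fpos := by
  refine ⟨?_⟩
  unfold fpos
  rw [Measure.sum_apply _ MeasurableSet.univ]
  simp only [Measure.smul_apply, Measure.dirac_apply_of_mem (mem_univ _), smul_eq_mul, mul_one]
  rw [ENNReal.tsum_geometric_add_one]
  simp
  exact ENNReal.inv_mul_cancel (by norm_num) (by norm_num)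

theorem fpos_supp : fpos S0ᶜ = 0 := by
  unfold fpos
  rw [Measure.sum_apply _ S0_compact.isClosed.isOpen_compl.measurableSet]
  simp only [Measure.smul_apply, smul_eq_mul, ENNReal.tsum_eq_zero, mul_eq_zero]
  intro i
  right
  rw [Measure.dirac_apply' _ S0_compact.isClosed.isOpen_compl.measurableSet,
    indicator_of_notMem (fun h : Ppt i ∈ S0ᶜ => h (Ppt_mem i))]

theorem fpos_zero : fpos {(0:Pl)} = 0 := by
  unfold fpos
  rw [Measure.sum_apply _ (measurableSet_singleton _)]
  simp only [Measure.smul_apply, smul_eq_mul, ENNReal.tsum_eq_zero, mul_eq_zero]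
  intro i
  right
  rw [Measure.dirac_apply' _ (measurableSet_singleton _), indicator_of_notMem]
  intro h
  have h1 : Ppt i = 0 := h
  have h2 : (Ppt i) 0 = 0 := by rw [h1]; rfl
  unfold Ppt at h2
  rw [seg_e0_0] at h2
  have := (qpt_mem i).1
  simp at h2
  linarith

theorem fpos_ge (i : ℕ) : ((2:ENNReal)⁻¹ ^ (i + 1)) • Measure.dirac (Ppt i) ≤ fpos :=
  Measure.le_sum (fun i : ℕ => ((2:ENNReal)⁻¹ ^ (i + 1)) • Measure.dirac (Ppt i)) i

noncomputable def jd : JordanDecomposition Pl where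
  posPart := fpos
  negPart := Measure.dirac 0
  posPart_finite := by have := fpos_prob; infer_instance
  negPart_finite := inferInstance
  mutuallySingular := by
    refine ⟨{(0:Pl)}, measurableSet_singleton _, fpos_zero, ?_⟩
    rw [Measure.dirac_apply' _ (measurableSet_singleton _).compl]
    simp

/-- the load -/
noncomputable def load : SignedMeasure Pl := jd.toSignedMeasure

theorem load_jd : load.toJordanDecomposition = jd := jd.toJordanDecomposition_toSignedMeasure

theorem pair_load (u : Pl → ℝ) (hu : Measurable u) : pair load u = (∫ x, u x ∂fpos) - u 0 := by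
  unfold pair
  rw [load_jd]
  show (∫ x, u x ∂fpos) - ∫ x, u x ∂(Measure.dirac (0:Pl)) = _
  rw [integral_dirac' _ _ hu.stronglyMeasurable]

/-- oscillation bound for the load -/
theorem pair_osc (u : Pl → ℝ) (hu : Measurable u) (hi : Integrable u fpos) (C : ℝ)
    (h : ∀ x ∈ S0, |u x - u 0| ≤ C) : |pair load u| ≤ C := by
  have hp := fpos_prob
  rw [pair_load u hu]
  have e : (∫ x, u x ∂fpos) - u 0 = ∫ x, (u x - u 0) ∂fpos := by
    rw [integral_sub hi (integrable_const _), integral_const]; simp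
  rw [e]
  have h2 : ∀ᵐ x ∂fpos, ‖u x - u 0‖ ≤ C := by
    have : ∀ᵐ x ∂fpos, x ∈ S0 := by
      rw [ae_iff]; exact fpos_supp
    filter_upwards [this] with x hx using h x hx
  have h3 := norm_integral_le_of_norm_le_const h2
  simpa using h3

theorem pair_pos (u : Pl → ℝ) (hu : Measurable u) (hi : Integrable u fpos) (hu0 : ∀ x, 0 ≤ u x) (i : ℕ)
    (h0 : u 0 = 0) : (1 / 2) ^ (i + 1) * u (Ppt i) ≤ pair load u := by
  rw [pair_load u hu, h0, sub_zero]
  have h1 := integral_mono_measure (fpos_ge i) (Eventually.of_forall hu0) hi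
  rw [integral_smul_measure, integral_dirac' _ _ hu.stronglyMeasurable] at h1
  refine le_trans (le_of_eq ?_) h1
  simp

end Pool.Agent.R223.Net
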