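import Mathlib
import Pool.Agent.R223.Net.Seg

set_option autoImplicit false
open MeasureTheory Set Filter Topology Metric

namespace Pool.Agent.R223.Net
open Pool.Agent.R223.NetDefs

theorem grad_norm (u : Pl → ℝ) (x : Pl) : ‖gradient u x‖ = ‖fderiv ℝ u x‖ := by
  unfold gradient
  exact (InnerProductSpace.toDual ℝ Pl).symm.norm_map _

/-- points of the plane have zero capacity -/
theorem zero_cap (p : Pl) (r ε : ℝ) (hr : 0 < r) (hε : 0 < ε) :
    ∃ v : Pl → ℝ, ContDiff ℝ (⊤ : ℕ∞) v ∧ HasCompactSupport v ∧ tsupport v ⊆ ball p r ∧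
      (∀ x, 0 ≤ v x ∧ v x ≤ 1) ∧ v p = 1 ∧ ∫ x, ‖gradient v x‖ ^ 2 ≤ ε := by
  classical
  obtain ⟨η, hη1, hη2⟩ : ∃ η : ContDiffBump (0 : Pl), η.rIn = r / 4 ∧ η.rOut = r / 2 :=
    ⟨⟨r / 4, r / 2, by positivity, by linarith⟩, rfl, rfl⟩
  have hsm : ContDiff ℝ (⊤ : ℕ∞) η := η.contDiff
  have hdiff : Differentiable ℝ η := hsm.differentiable (by simp)
  -- support of the gradient
  have hsup : ∀ y : Pl, fderiv ℝ η y ≠ 0 → r / 4 ≤ ‖y‖ ∧ ‖y‖ ≤ r / 2 := by
    intro y hy
    constructor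
    · by_contra h
      push Not at h
      apply hy
      have : (η : Pl → ℝ) =ᶠ[𝓝 y] fun _ => 1 := by
        filter_upwards [isOpen_ball.mem_nhds (show y ∈ ball (0:Pl) (r / 4) by simpa using h)] with z hz
        refine η.one_of_mem_closedBall ?_
        rw [hη1]; exact ball_subset_closedBall hz
      rw [this.fderiv_eq]; simp
    · by_contra h
      push Not at h
      apply hy
      have : (η : Pl → ℝ) =ᶠ[𝓝 y] fun _ => 0 := by
        filter_upwards [isClosed_closedBall.isOpen_compl.mem_nhds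
          (show y ∈ (closedBall (0:Pl) (r / 2))ᶜ by simpa using h)] with z hz
        refine η.zero_of_le_dist ?_
        rw [hη2]
        simp only [mem_compl_iff, mem_closedBall, not_le] at hz
        exact hz.le
      rw [this.fderiv_eq]; simp
  set C := ∫ x, ‖fderiv ℝ η x‖ ^ 2 with hC
  have hC0 : 0 ≤ C := integral_nonneg fun x => sq_nonneg _
  obtain ⟨N, hN⟩ : ∃ N : ℕ, C / ε < N := exists_nat_gt _
  have hN0 : (0:ℝ) < N := lt_of_le_of_lt (by positivity) hN
  have hNn : 0 < N := by exact_mod_cast hN0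
  -- the scaled bumps
  set w : ℕ → Pl → ℝ := fun j x => η ((4:ℝ) ^ j • (x - p)) with hw
  have hws : ∀ j, ContDiff ℝ (⊤ : ℕ∞) (w j) := fun j => hsm.comp (by fun_prop)
  have hwf : ∀ j x, fderiv ℝ (w j) x = (4:ℝ) ^ j • fderiv ℝ η ((4:ℝ) ^ j • (x - p)) := by
    intro j x
    have h1 : HasFDerivAt (fun x : Pl => (4:ℝ) ^ j • (x - p)) ((4:ℝ) ^ j • ContinuousLinearMap.id ℝ Pl) x :=
      ((hasFDerivAt_id x).sub_const p).const_smul ((4:ℝ) ^ j)
    have h2 : HasFDerivAt η (fderiv ℝ η ((4:ℝ) ^ j • (x - p))) ((4:ℝ) ^ j • (x - p)) :=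
      (hdiff _).hasFDerivAt
    have h3 := h2.comp x h1
    have h4 : fderiv ℝ (w j) x = (fderiv ℝ η ((4:ℝ) ^ j • (x - p))).comp ((4:ℝ) ^ j • ContinuousLinearMap.id ℝ Pl) := h3.fderiv
    rw [h4]
    ext y
    simp
  have hwt : ∀ j, tsupport (w j) ⊆ closedBall p (r / 2) := by
    intro j
    refine closure_minimal ?_ isClosed_closedBall
    intro x hx
    by_contra h
    apply hx
    refine η.zero_of_le_dist ?_
    rw [hη2, dist_zero_right, norm_smul, norm_pow, Real.norm_of_nonneg (by norm_num : (0:ℝ) ≤ 4)]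
    rw [mem_closedBall, dist_eq_norm, not_le] at h
    have h4 : (1:ℝ) ≤ 4 ^ j := one_le_pow₀ (by norm_num)
    nlinarith
  have hwc : ∀ j, HasCompactSupport (w j) := fun j =>
    (isCompact_closedBall p (r / 2)).of_isClosed_subset (isClosed_tsupport _) (hwt j)
  have hwint : ∀ j, ∫ x, ‖fderiv ℝ (w j) x‖ ^ 2 = C := by
    intro j
    have e1 : (fun x => ‖fderiv ℝ (w j) x‖ ^ 2) =
        fun x => ((4:ℝ) ^ j) ^ 2 * ‖fderiv ℝ η ((4:ℝ) ^ j • (x - p))‖ ^ 2 := by
      funext x
      rw [hwf, norm_smul, norm_pow, Real.norm_of_nonneg (by norm_num : (0:ℝ) ≤ 4), mul_pow]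
    rw [e1, integral_const_mul,
      integral_sub_right_eq_self (fun x => ‖fderiv ℝ η ((4:ℝ) ^ j • x)‖ ^ 2) p,
      Measure.integral_comp_smul (volume : Measure Pl) (fun x => ‖fderiv ℝ η x‖ ^ 2) ((4:ℝ) ^ j)]
    have hfr : Module.finrank ℝ Pl = 2 := by simp [Pl]
    rw [hfr, smul_eq_mul, abs_of_nonneg (by positivity), ← mul_assoc, mul_inv_cancel₀ (by positivity), one_mul]
  have hwdisj : ∀ x i j, i ≠ j → fderiv ℝ (w i) x = 0 ∨ fderiv ℝ (w j) x = 0 := by
    intro x i j hij
    by_contra hcon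
    push Not at hcon
    obtain ⟨h1, h2⟩ := hcon
    rw [hwf] at h1 h2
    have h3 := hsup _ (right_ne_zero_of_smul h1)
    have h4 := hsup _ (right_ne_zero_of_smul h2)
    rw [norm_smul, norm_pow, Real.norm_of_nonneg (by norm_num : (0:ℝ) ≤ 4)] at h3 h4
    rcases lt_or_gt_of_ne hij with h | h
    · have h5 : (4:ℝ) ^ i * 4 ≤ 4 ^ j := by
        rw [← pow_succ]; exact pow_le_pow_right₀ (by norm_num) h
      nlinarith [norm_nonneg (x - p)]
    · have h5 : (4:ℝ) ^ j * 4 ≤ 4 ^ i := by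
        rw [← pow_succ]; exact pow_le_pow_right₀ (by norm_num) h
      nlinarith [norm_nonneg (x - p)]
  -- the average
  set v : Pl → ℝ := fun x => ∑ j ∈ Finset.range N, (1 / N : ℝ) * w j x with hv
  have hvf : ∀ x, fderiv ℝ v x = ∑ j ∈ Finset.range N, (1 / N : ℝ) • fderiv ℝ (w j) x := by
    intro x
    have h1 : HasFDerivAt v (∑ j ∈ Finset.range N, (1 / N : ℝ) • fderiv ℝ (w j) x) x := by
      refine HasFDerivAt.fun_sum fun j _ => ?_
      exact (((hws j).differentiable (by simp)) x).hasFDerivAt.const_mul (1 / N : ℝ)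
    exact h1.fderiv
  have hvn : ∀ x, ‖fderiv ℝ v x‖ ^ 2 = ∑ j ∈ Finset.range N, (1 / N : ℝ) ^ 2 * ‖fderiv ℝ (w j) x‖ ^ 2 := by
    intro x
    rw [hvf]
    by_cases hall : ∀ j ∈ Finset.range N, fderiv ℝ (w j) x = 0
    · rw [Finset.sum_eq_zero (fun j hj => by rw [hall j hj, smul_zero]),
        Finset.sum_eq_zero (fun j hj => by rw [hall j hj]; simp)]
      simp
    · push Not at hall
      obtain ⟨j, hj, hj0⟩ := hall
      have hz : ∀ i ∈ Finset.range N, i ≠ j → fderiv ℝ (w i) x = 0 := by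
        intro i _ hij
        rcases hwdisj x i j hij with h | h
        · exact h
        · exact absurd h hj0
      rw [Finset.sum_eq_single j (fun i hi hij => by rw [hz i hi hij, smul_zero]) (fun h => absurd hj h),
        Finset.sum_eq_single j (fun i hi hij => by rw [hz i hi hij]; simp) (fun h => absurd hj h),
        norm_smul, mul_pow]
      congr 1
      rw [Real.norm_eq_abs, sq_abs]
  have hvt : tsupport v ⊆ closedBall p (r / 2) := by
    refine closure_minimal ?_ isClosed_closedBall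
    intro x hx
    by_contra h
    apply hx
    refine Finset.sum_eq_zero fun j _ => ?_
    rw [image_eq_zero_of_notMem_tsupport (fun h2 => h (hwt j h2)), mul_zero]
  refine ⟨v, ContDiff.sum fun j _ => contDiff_const.mul (hws j),
    (isCompact_closedBall p (r / 2)).of_isClosed_subset (isClosed_tsupport _) hvt,
    hvt.trans (closedBall_subset_ball (by linarith)), ?_, ?_, ?_⟩
  · intro x
    have h1 : ∀ j, 0 ≤ w j x ∧ w j x ≤ 1 := fun j => ⟨η.nonneg, η.le_one⟩
    constructor
    · exact Finset.sum_nonneg fun j _ => mul_nonneg (by positivity) (h1 j).1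
    · calc v x ≤ ∑ j ∈ Finset.range N, (1 / N : ℝ) * 1 :=
          Finset.sum_le_sum fun j _ => mul_le_mul_of_nonneg_left (h1 j).2 (by positivity)
        _ = 1 := by rw [Finset.sum_const, Finset.card_range, nsmul_eq_mul]; field_simp
  · have h1 : ∀ j, w j p = 1 := by
      intro j
      simp only [hw, sub_self, smul_zero]
      exact η.one_of_mem_closedBall (mem_closedBall_self η.rIn_pos.le)
    show ∑ j ∈ Finset.range N, (1 / N : ℝ) * w j p = 1
    simp only [h1, mul_one]
    rw [Finset.sum_const, Finset.card_range, nsmul_eq_mul]; field_simp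
  · simp only [grad_norm, hvn]
    have hi : ∀ j, Integrable (fun x => ‖fderiv ℝ (w j) x‖ ^ 2) := by
      intro j
      have hc : Continuous (fun x => ‖fderiv ℝ (w j) x‖ ^ 2) :=
        (((hws j).continuous_fderiv (by simp)).norm).pow 2
      exact hc.integrable_of_hasCompactSupport
        (((hwc j).fderiv ℝ).comp_left (g := fun L : Pl →L[ℝ] ℝ => ‖L‖ ^ 2) (by simp))
    rw [integral_finsetSum _ fun j _ => (hi j).const_mul _]
    simp only [integral_const_mul, hwint]
    rw [Finset.sum_const, Finset.card_range, nsmul_eq_mul]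
    rw [div_lt_iff₀ hε] at hN
    have e : (N:ℝ) * ((1 / N) ^ 2 * C) = C / N := by field_simp
    rw [e, div_le_iff₀ hN0]
    linarith

end Pool.Agent.R223.Net
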