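import Mathlib
import Pool.Agent.R223.Net.Cap
import Pool.Agent.R223.Sem.OneD

set_option autoImplicit false
open MeasureTheory Set Filter Topology Metric

namespace Pool.Agent.R223.Net
open Pool.Agent.R223.NetDefs

/-- the disc of radius three -/
def Disc : Set Pl := ball (0 : Pl) 3

/-- tangential Dirichlet energy on the unit segment -/
noncomputable def T (u : Pl → ℝ) : ℝ := ∫ s in Ioo (0:ℝ) 1, (fderiv ℝ u (seg 0 e0 s) e0) ^ 2

theorem S0_sub : S0 ⊆ Disc := by
  rintro _ ⟨s, hs, rfl⟩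
  unfold Disc seg
  rw [mem_ball_zero_iff, zero_add, norm_smul, e0_norm, mul_one, Real.norm_eq_abs, abs_of_nonneg hs.1]
  linarith [hs.2]

variable {Ω : Set Pl} {u : Pl → ℝ}

theorem tdiff (hu : IsTest Ω u) : Differentiable ℝ u := hu.1.differentiable (by simp)
theorem tcfd (hu : IsTest Ω u) : Continuous (fderiv ℝ u) := hu.1.continuous_fderiv (by simp)

theorem tbdd (hu : IsTest Ω u) : ∃ C : ℝ, 0 ≤ C ∧ (∀ x, |u x| ≤ C) ∧ ∀ x, ‖fderiv ℝ u x‖ ≤ C := by
  obtain ⟨C1, h1⟩ := hu.2.1.exists_bound_of_continuous hu.1.continuous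
  obtain ⟨C2, h2⟩ := (hu.2.1.fderiv ℝ).exists_bound_of_continuous (tcfd hu)
  exact ⟨max C1 C2, (norm_nonneg _).trans ((h1 0).trans (le_max_left _ _)),
    fun x => (h1 x).trans (le_max_left _ _), fun x => (h2 x).trans (le_max_right _ _)⟩

theorem gsq_cont (hu : IsTest Ω u) : Continuous (fun x => ‖gradient u x‖ ^ 2) := by
  simp only [grad_norm]
  exact (tcfd hu).norm.pow 2

theorem gsq_cs (hu : IsTest Ω u) : HasCompactSupport (fun x => ‖gradient u x‖ ^ 2) := by
  simp only [grad_norm]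
  exact (hu.2.1.fderiv ℝ).comp_left (g := fun L : Pl →L[ℝ] ℝ => ‖L‖ ^ 2) (by simp)

theorem gsq_int (hu : IsTest Ω u) (μ : Measure Pl) [IsFiniteMeasure μ] :
    Integrable (fun x => ‖gradient u x‖ ^ 2) μ := by
  obtain ⟨C, hC0, -, hC⟩ := tbdd hu
  refine Integrable.of_bound (gsq_cont hu).aestronglyMeasurable (C ^ 2) (Eventually.of_forall fun x => ?_)
  rw [Real.norm_of_nonneg (sq_nonneg _), grad_norm]
  exact pow_le_pow_left₀ (norm_nonneg _) (hC x) 2

theorem grad_zero (hu : IsTest Ω u) {x : Pl} (hx : x ∉ Ω) : ‖gradient u x‖ ^ 2 = 0 := by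
  rw [grad_norm]
  have : fderiv ℝ u x = 0 := by
    by_contra h
    exact hx (hu.2.2 (support_fderiv_subset ℝ h))
  rw [this]; simp

theorem set_int (hu : IsTest Ω u) (μ : Measure Pl) :
    ∫ x in Ω, ‖gradient u x‖ ^ 2 ∂μ = ∫ x, ‖gradient u x‖ ^ 2 ∂μ :=
  setIntegral_eq_integral_of_forall_compl_eq_zero fun _ hx => grad_zero hu hx

theorem line_deriv (hu : IsTest Ω u) (s : ℝ) :
    HasDerivAt (fun s => u (seg 0 e0 s)) (fderiv ℝ u (seg 0 e0 s) e0) s := by
  have h1 : HasDerivAt (seg 0 e0) e0 s := by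
    have h : HasDerivAt (seg 0 e0) ((1:ℝ) • e0) s := ((hasDerivAt_id s).smul_const e0).const_add (0:Pl)
    rwa [one_smul] at h
  exact ((tdiff hu) (seg 0 e0 s)).hasFDerivAt.comp_hasDerivAt s h1

theorem line_cont (hu : IsTest Ω u) : Continuous (fun s => fderiv ℝ u (seg 0 e0 s) e0) :=
  ((tcfd hu).comp (seg_cont 0 e0)).clm_apply continuous_const

theorem T_nonneg (u : Pl → ℝ) : 0 ≤ T u := integral_nonneg fun s => sq_nonneg _

/-- the load is controlled by the tangential energy -/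
theorem pair_sq (hu : IsTest Ω u) : (pair load u) ^ 2 ≤ T u := by
  have hp := fpos_prob
  obtain ⟨C, hC0, hC, -⟩ := tbdd hu
  have hi : Integrable u fpos := Integrable.of_bound hu.1.continuous.aestronglyMeasurable C
    (Eventually.of_forall hC)
  have key : ∀ x ∈ S0, |u x - u 0| ≤ Real.sqrt (T u) := by
    rintro _ ⟨s, hs, rfl⟩
    refine Real.abs_le_sqrt ?_
    have h0 : u 0 = u (seg 0 e0 0) := by simp [seg]
    have hft : ∫ t in (0:ℝ)..s, fderiv ℝ u (seg 0 e0 t) e0 = u (seg 0 e0 s) - u (seg 0 e0 0) :=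
      intervalIntegral.integral_eq_sub_of_hasDerivAt (fun t _ => line_deriv hu t)
        ((line_cont hu).intervalIntegrable _ _)
    rw [h0, ← hft, intervalIntegral.integral_of_le hs.1, ← integral_indicator measurableSet_Ioc]
    have hq : Integrable ((Ioo (0:ℝ) 1).indicator (fun t => (fderiv ℝ u (seg 0 e0 t) e0) ^ 2)) := by
      rw [integrable_indicator_iff measurableSet_Ioo]
      exact (((line_cont hu).pow 2).continuousOn.integrableOn_compact isCompact_Icc).mono_set Ioo_subset_Icc_self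
    have hm : Measurable (fun t : ℝ => (Ioc 0 s).indicator (fun t => fderiv ℝ u (seg 0 e0 t) e0) t) :=
      (line_cont hu).measurable.indicator measurableSet_Ioc
    have e1 : ∫ t, (Ioc 0 s).indicator (fun t => fderiv ℝ u (seg 0 e0 t) e0) t =
        ∫ t, (Ioc 0 s ∩ Ioo 0 1).indicator (fun t => fderiv ℝ u (seg 0 e0 t) e0) t := by
      refine integral_congr_ae ?_
      have : ∀ᵐ t : ℝ, t ≠ 1 := by
        rw [ae_iff]; simp
      filter_upwards [this] with t ht
      by_cases h : t ∈ Ioc 0 s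
      · have h2 : t ∈ Ioc 0 s ∩ Ioo 0 1 := ⟨h, h.1, lt_of_le_of_ne (h.2.trans hs.2) ht⟩
        rw [indicator_of_mem h, indicator_of_mem h2]
      · rw [indicator_of_notMem h, indicator_of_notMem (fun h2 => h h2.1)]
    rw [e1]
    have := Pool.Agent.R223.Sem.dual_bound volume (Ioo (0:ℝ) 1) measurableSet_Ioo
      ((Ioc 0 s ∩ Ioo 0 1).indicator (fun t => fderiv ℝ u (seg 0 e0 t) e0)) (fun _ => 1)
      ((Ioo (0:ℝ) 1).indicator (fun t => (fderiv ℝ u (seg 0 e0 t) e0) ^ 2)) ?_ ?_ ?_ ?_ ?_ hq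
    · rw [integral_indicator measurableSet_Ioo] at this
      refine this.trans (le_of_eq ?_)
      simp [T]
    · intro z hz
      rw [indicator_of_notMem (fun h => hz h.2)]
    · intro z
      exact indicator_nonneg (fun _ _ => sq_nonneg _) z
    · intro z _; exact zero_le_one
    · intro z hz
      rw [indicator_of_mem hz, one_mul]
      by_cases h : z ∈ Ioc 0 s ∩ Ioo 0 1
      · rw [indicator_of_mem h]
      · rw [indicator_of_notMem h]
        have := sq_nonneg (fderiv ℝ u (seg 0 e0 z) e0)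
        simpa using this
    · exact integrableOn_const (by simp)
  have h1 := pair_osc u hu.1.continuous.measurable hi _ key
  calc (pair load u) ^ 2 = |pair load u| ^ 2 := (sq_abs _).symm
    _ ≤ Real.sqrt (T u) ^ 2 := pow_le_pow_left₀ (abs_nonneg _) h1 2
    _ = T u := Real.sq_sqrt (T_nonneg u)

theorem net_finite {S : Set Pl} {L : ℝ} (h : (Measure.hausdorffMeasure 1 : Measure Pl) S ≤ ENNReal.ofReal L) :
    IsFiniteMeasure (Net S) :=
  ⟨by unfold Net; rw [Measure.restrict_apply_univ]; exact h.trans_lt ENNReal.ofReal_lt_top⟩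

theorem S0_len : (Measure.hausdorffMeasure 1 : Measure Pl) S0 = 1 := by
  unfold S0
  rw [meas_seg 0 e0 e0_norm]; simp

/-- on the segment the full gradient controls the tangential one -/
theorem seg_energy (hu : IsTest Ω u) : T u ≤ ∫ x, ‖gradient u x‖ ^ 2 ∂(Net S0) := by
  unfold S0 T
  rw [int_seg 0 e0 e0_norm, Measure.restrict_congr_set (Ioo_ae_eq_Icc (a := (0:ℝ)) (b := 1) (μ := volume))]
  refine setIntegral_mono_on ?_ ?_ measurableSet_Icc ?_
  · exact ((line_cont hu).pow 2).continuousOn.integrableOn_compact isCompact_Icc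
  · exact ((gsq_cont hu).comp (seg_cont 0 e0)).continuousOn.integrableOn_compact isCompact_Icc
  · intro s _
    rw [grad_norm, ← sq_abs]
    refine pow_le_pow_left₀ (abs_nonneg _) ?_ 2
    have := (fderiv ℝ u (seg 0 e0 s)).le_opNorm e0
    rwa [e0_norm, mul_one] at this

/-- the relaxed measure -/
noncomputable def mu0 : Measure Pl := (ENNReal.ofReal (3 / 2)) • Net S0

theorem mu0_int (h : Pl → ℝ) : ∫ x, h x ∂mu0 = 3 / 2 * ∫ x, h x ∂(Net S0) := by
  unfold mu0
  rw [integral_smul_measure, ENNReal.toReal_ofReal (by norm_num), smul_eq_mul]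

theorem bulk_nonneg (u : Pl → ℝ) (μ : Measure Pl) : 0 ≤ ∫ x, ‖gradient u x‖ ^ 2 ∂μ :=
  integral_nonneg fun x => sq_nonneg _

theorem J_mu0 (hu : IsTest Disc u) :
    1 / 2 * (∫ x, ‖gradient u x‖ ^ 2) + 3 / 4 * T u - pair load u ≤ J Disc load 1 mu0 u := by
  unfold J
  rw [set_int hu, set_int hu, mu0_int]
  have := seg_energy hu
  linarith

theorem J_net (hu : IsTest Disc u) : 1 / 2 * T u - pair load u ≤ J Disc load 1 (Net S0) u := by
  unfold J
  rw [set_int hu, set_int hu]
  have := seg_energy hu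
  have := bulk_nonneg u volume
  linarith

theorem energy_S0 : Energy Disc load 1 (Net S0) ≠ ⊥ := by
  have h : ((-1 : ℝ) : EReal) ≤ Energy Disc load 1 (Net S0) := by
    refine le_iInf fun u => ?_
    rw [EReal.coe_le_coe_iff]
    have h1 := J_net u.2
    have h2 := pair_sq u.2
    nlinarith [sq_nonneg (pair load u.1 - 1)]
  intro h0
  rw [h0] at h
  exact absurd h (not_le.2 (EReal.bot_lt_coe _))

theorem J_smul (hu : IsTest Ω u) (f : SignedMeasure Pl) (m : ℝ) (μ : Measure Pl) (c : ℝ) :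
    J Ω f m μ (fun x => c * u x) =
      c ^ 2 * (1 / 2 * (∫ x in Ω, ‖gradient u x‖ ^ 2) + m / 2 * (∫ x in Ω, ‖gradient u x‖ ^ 2 ∂μ)) -
        c * pair f u := by
  have hg : ∀ x, ‖gradient (fun x => c * u x) x‖ ^ 2 = c ^ 2 * ‖gradient u x‖ ^ 2 := by
    intro x
    rw [grad_norm, grad_norm]
    have := ((tdiff hu) x).hasFDerivAt.const_mul c
    rw [this.fderiv, norm_smul, mul_pow, Real.norm_eq_abs, sq_abs]
  unfold J pair
  simp only [hg]
  rw [integral_const_mul, integral_const_mul, integral_const_mul, integral_const_mul]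
  ring

theorem test_smul (hu : IsTest Ω u) (c : ℝ) : IsTest Ω (fun x => c * u x) := by
  refine ⟨contDiff_const.mul hu.1, hu.2.1.mul_left, ?_⟩
  refine (closure_mono ?_).trans hu.2.2
  intro x hx h0
  apply hx
  simp only [h0, mul_zero]

/-- test functions concentrated near a load point -/
theorem near_point (i : ℕ) (r ε : ℝ) (hr : 0 < r) (hε : 0 < ε) : ∃ v : Pl → ℝ, IsTest Disc v ∧
    tsupport v ⊆ ball (Ppt i) r ∧ (∫ x, ‖gradient v x‖ ^ 2) ≤ ε ∧ (1 / 2) ^ (i + 1) ≤ pair load v := by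
  have hq := qpt_mem i
  obtain ⟨v, h1, h2, h3, h4, h5, h6⟩ := zero_cap (Ppt i) (min r (qpt i)) ε (lt_min hr hq.1) hε
  have hPn : ‖Ppt i‖ = qpt i := by
    unfold Ppt seg
    rw [zero_add, norm_smul, e0_norm, mul_one, Real.norm_eq_abs, abs_of_pos hq.1]
  have h30 : (0:Pl) ∉ tsupport v := by
    intro h
    have := h3 h
    rw [mem_ball, dist_comm, dist_zero_right, hPn] at this
    exact absurd this (not_lt.2 (min_le_right _ _))
  refine ⟨v, ⟨h1, h2, h3.trans ?_⟩, h3.trans (ball_subset_ball (min_le_left _ _)), h6, ?_⟩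
  · intro x hx
    unfold Disc
    rw [mem_ball_zero_iff]
    rw [mem_ball, dist_eq_norm] at hx
    have h7 : ‖x‖ ≤ ‖x - Ppt i‖ + ‖Ppt i‖ := by
      have := norm_add_le (x - Ppt i) (Ppt i)
      rwa [sub_add_cancel] at this
    have h8 := hx.trans_le (min_le_right _ _)
    rw [hPn] at h7
    linarith [hq.2]
  · have hp := fpos_prob
    have hi : Integrable v fpos := Integrable.of_bound h1.continuous.aestronglyMeasurable 1
      (Eventually.of_forall fun x => by rw [Real.norm_of_nonneg (h4 x).1]; exact (h4 x).2)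
    have := pair_pos v h1.continuous.measurable hi (fun x => (h4 x).1) i (image_eq_zero_of_notMem_tsupport h30)
    rwa [h5, mul_one] at this

theorem energy_mu0_neg : ∃ E : ℝ, E < 0 ∧ Energy Disc load 1 mu0 = (E : EReal) := by
  have hlow : ((-1 : ℝ) : EReal) ≤ Energy Disc load 1 mu0 := by
    refine le_iInf fun u => ?_
    rw [EReal.coe_le_coe_iff]
    have h1 := J_mu0 u.2
    have h2 := pair_sq u.2
    have h3 := bulk_nonneg u.1 volume
    have h4 := T_nonneg u.1
    nlinarith [sq_nonneg (pair load u.1 - 1)]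
  obtain ⟨v, hv, -, -, hpv⟩ := near_point 0 1 1 one_pos one_pos
  set A := 1 / 2 * (∫ x in Disc, ‖gradient v x‖ ^ 2) + 1 / 2 * (∫ x in Disc, ‖gradient v x‖ ^ 2 ∂mu0) with hA
  have hA0 : 0 ≤ A := by
    rw [hA, set_int hv, set_int hv]
    have h1 := bulk_nonneg v volume
    have h2 := bulk_nonneg v mu0
    positivity
  have hup : Energy Disc load 1 mu0 < 0 := by
    set c : ℝ := 1 / (4 * (A + 1)) with hc
    have hc0 : 0 < c := by positivity
    refine lt_of_le_of_lt (iInf_le _ ⟨_, test_smul hv c⟩) ?_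
    show ((J Disc load 1 mu0 (fun x => c * v x) : ℝ) : EReal) < 0
    rw [J_smul hv, ← hA]
    have h1 : c ^ 2 * A - c * pair load v < 0 := by
      have h2 : c * A ≤ 1 / 4 := by
        rw [hc, div_mul_eq_mul_div, div_le_iff₀ (by positivity)]; linarith
      have h3 : (1 / 2 : ℝ) ≤ pair load v := by simpa using hpv
      nlinarith
    exact_mod_cast h1
  have hne1 : Energy Disc load 1 mu0 ≠ ⊥ := by
    intro h0
    rw [h0] at hlow
    exact absurd hlow (not_le.2 (EReal.bot_lt_coe _))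
  have hne2 : Energy Disc load 1 mu0 ≠ ⊤ := by
    intro h0
    rw [h0] at hup
    exact absurd hup (not_lt.2 le_top)
  refine ⟨(Energy Disc load 1 mu0).toReal, ?_, (EReal.coe_toReal hne2 hne1).symm⟩
  rw [← EReal.coe_toReal hne2 hne1] at hup
  exact_mod_cast hup

/-- finite energy forces the network to contain the segment -/
theorem contains_S0 (S : Set Pl) (hS : AdmRel Disc (3 / 2) S) (hE : Energy Disc load 1 (Net S) ≠ ⊥) :
    S0 ⊆ S := by
  obtain ⟨⟨C, hC, hSC⟩, hlen⟩ := hS
  have hPC : ∀ i, Ppt i ∈ C := by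
    intro i
    by_contra hPi
    apply hE
    obtain ⟨r, hr, hball⟩ := Metric.isOpen_iff.1 hC.isOpen_compl (Ppt i) hPi
    rw [EReal.eq_bot_iff_forall_lt]
    intro K
    set c : ℝ := (1 / 2) ^ (i + 1) with hc
    have hc0 : 0 < c := by positivity
    obtain ⟨M, hM⟩ : ∃ M : ℝ, 0 < M ∧ 1 / 2 - M * c < K := by
      refine ⟨max 1 ((|K| + 1) / c), by positivity, ?_⟩
      have h1 : (|K| + 1) ≤ max 1 ((|K| + 1) / c) * c := by
        have := le_max_right 1 ((|K| + 1) / c)
        rwa [div_le_iff₀ hc0] at this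
      have h2 := neg_abs_le K
      linarith
    obtain ⟨hM0, hM1⟩ := hM
    obtain ⟨v, hv, hvs, hvD, hvp⟩ := near_point i r (1 / M ^ 2) hr (by positivity)
    have hzero : ∫ x, ‖gradient v x‖ ^ 2 ∂(Net S) = 0 := by
      unfold Net
      refine setIntegral_eq_zero_of_forall_eq_zero fun x hx => ?_
      rw [grad_norm]
      have : fderiv ℝ v x = 0 := by
        by_contra h
        have h1 := hball (hvs (support_fderiv_subset ℝ h))
        rw [hSC] at hx
        exact h1 hx.1
      rw [this]; simp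
    refine lt_of_le_of_lt (iInf_le _ ⟨_, test_smul hv M⟩) ?_
    show ((J Disc load 1 (Net S) (fun x => M * v x) : ℝ) : EReal) < (K : EReal)
    rw [J_smul hv, set_int hv, set_int hv, hzero, EReal.coe_lt_coe_iff]
    have h1 : M ^ 2 * (∫ x, ‖gradient v x‖ ^ 2) ≤ 1 := by
      have := mul_le_mul_of_nonneg_left hvD (by positivity : 0 ≤ M ^ 2)
      have e : M ^ 2 * (1 / M ^ 2) = 1 := by field_simp
      linarith
    have h2 : M * c ≤ M * pair load v := mul_le_mul_of_nonneg_left hvp hM0.le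
    nlinarith
  intro x hx
  rw [hSC]
  exact ⟨Ppt_dense C hC hPC hx, S0_sub hx⟩

end Pool.Agent.R223.Net
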