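import Mathlib

set_option autoImplicit false
open MeasureTheory Filter Topology Metric Set
open scoped Manifold ContDiff

namespace Pool.Agent.R223.Net

/-- the half-open cells of length `1/N` -/
def cell (N j : ℕ) : Set ℝ := Ico ((j : ℝ) / N) (((j : ℝ) + 1) / N)

theorem cell_meas (N j : ℕ) : MeasurableSet (cell N j) := measurableSet_Ico

theorem cell_sub (N j : ℕ) : cell N j ⊆ Icc ((j : ℝ) / N) (((j : ℝ) + 1) / N) := Ico_subset_Icc_self

theorem cell_vol (N j : ℕ) : (volume (cell N j)).toReal = 1 / N := by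
  unfold cell
  rw [Real.volume_Ico, ENNReal.toReal_ofReal]
  · ring
  · have : ((j : ℝ) + 1) / N - j / N = 1 / N := by ring
    rw [this]; positivity

theorem cell_disj (N : ℕ) (hN : 1 ≤ N) (i j : ℕ) (hij : i ≠ j) : Disjoint (cell N i) (cell N j) := by
  have hN0 : (0:ℝ) < N := by exact_mod_cast hN
  rw [Set.disjoint_left]
  rintro x ⟨h1, h2⟩ ⟨h3, h4⟩
  rw [div_le_iff₀ hN0] at h1 h3
  rw [lt_div_iff₀ hN0] at h2 h4
  rcases lt_or_gt_of_ne hij with h | h
  · have : (i : ℝ) + 1 ≤ j := by exact_mod_cast h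
    linarith
  · have : (j : ℝ) + 1 ≤ i := by exact_mod_cast h
    linarith

theorem cell_union (N : ℕ) (hN : 1 ≤ N) : (⋃ j ∈ Finset.range N, cell N j) = Ico (0:ℝ) 1 := by
  have hN0 : (0:ℝ) < N := by exact_mod_cast hN
  ext x
  simp only [mem_iUnion, Finset.mem_range, cell, mem_Ico]
  constructor
  · rintro ⟨j, hj, h1, h2⟩
    have hj' : (j : ℝ) + 1 ≤ N := by exact_mod_cast hj
    refine ⟨le_trans (by positivity) h1, h2.trans_le ?_⟩
    rw [div_le_one hN0]; exact hj'
  · rintro ⟨h1, h2⟩
    refine ⟨⌊x * N⌋₊, ?_, ?_, ?_⟩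
    · rw [Nat.floor_lt (by positivity)]; nlinarith
    · rw [div_le_iff₀ hN0]; exact Nat.floor_le (by positivity)
    · rw [lt_div_iff₀ hN0]; exact Nat.lt_floor_add_one _

/-- slope off the bad set -/
noncomputable def alp (N : ℕ) (A : Set ℝ) (j : ℕ) : ℝ :=
  (1 - (2 / 3) * (N * (volume (A ∩ cell N j)).toReal)) / (1 - N * (volume (A ∩ cell N j)).toReal)

noncomputable def bump (N : ℕ) (A : Set ℝ) (j : ℕ) : ℝ → ℝ := fun x =>
  (A ∩ cell N j).indicator (fun _ => (-(1 / 3) : ℝ)) x + (cell N j \ A).indicator (fun _ => alp N A j - 1) x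

noncomputable def rho (N : ℕ) (A : Set ℝ) : ℝ → ℝ := fun x => 1 + ∑ j ∈ Finset.range N, bump N A j x

section
variable {N : ℕ} {A : Set ℝ}

theorem aj_bounds (hN : 1 ≤ N) (j : ℕ)
    (h : (volume (A ∩ Icc ((j : ℝ) / N) (((j : ℝ) + 1) / N))).toReal ≤ (51 / 100) / N) :
    0 ≤ N * (volume (A ∩ cell N j)).toReal ∧ N * (volume (A ∩ cell N j)).toReal ≤ 51 / 100 := by
  have hN0 : (0:ℝ) < N := by exact_mod_cast hN
  refine ⟨by positivity, ?_⟩
  have h1 : (volume (A ∩ cell N j)).toReal ≤ (volume (A ∩ Icc ((j : ℝ) / N) (((j : ℝ) + 1) / N))).toReal := by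
    refine ENNReal.toReal_mono ?_ (measure_mono (inter_subset_inter_right _ (cell_sub N j)))
    exact ne_top_of_le_ne_top (by simp) (measure_mono inter_subset_right)
  have h2 := h1.trans h
  rw [le_div_iff₀ hN0] at h2
  linarith

theorem alp_bounds (hN : 1 ≤ N) (j : ℕ)
    (h : (volume (A ∩ Icc ((j : ℝ) / N) (((j : ℝ) + 1) / N))).toReal ≤ (51 / 100) / N) :
    1 ≤ alp N A j ∧ alp N A j ≤ 7 / 5 := by
  obtain ⟨h1, h2⟩ := aj_bounds hN j h
  unfold alp
  set a := N * (volume (A ∩ cell N j)).toReal
  have h3 : 0 < 1 - a := by linarith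
  constructor
  · rw [le_div_iff₀ h3]; linarith
  · rw [div_le_iff₀ h3]; linarith

theorem bump_off (j : ℕ) (x : ℝ) (hx : x ∉ cell N j) : bump N A j x = 0 := by
  unfold bump
  rw [indicator_of_notMem (fun h => hx h.2), indicator_of_notMem (fun h => hx h.1), add_zero]

theorem bump_in (j : ℕ) (x : ℝ) (hx : x ∈ cell N j) (hA : x ∈ A) : bump N A j x = -(1 / 3) := by
  unfold bump
  rw [indicator_of_mem (show x ∈ A ∩ cell N j from ⟨hA, hx⟩), indicator_of_notMem (fun h => h.2 hA), add_zero]

theorem bump_out (j : ℕ) (x : ℝ) (hx : x ∈ cell N j) (hA : x ∉ A) : bump N A j x = alp N A j - 1 := by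
  unfold bump
  rw [indicator_of_notMem (fun h => hA h.1), indicator_of_mem (show x ∈ cell N j \ A from ⟨hx, hA⟩), zero_add]

theorem rho_cell (hN : 1 ≤ N) (j : ℕ) (hj : j < N) (x : ℝ) (hx : x ∈ cell N j) :
    rho N A x = 1 + bump N A j x := by
  unfold rho
  congr 1
  refine Finset.sum_eq_single j (fun i _ hij => bump_off i x ?_) (fun h => absurd (Finset.mem_range.2 hj) h)
  intro h
  exact Set.disjoint_left.1 (cell_disj N hN i j hij) h hx

theorem rho_off (hN : 1 ≤ N) (x : ℝ) (hx : x ∉ Ico (0:ℝ) 1) : rho N A x = 1 := by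
  unfold rho
  rw [Finset.sum_eq_zero, add_zero]
  intro j hj
  refine bump_off j x fun h => hx ?_
  rw [← cell_union N hN]
  exact mem_biUnion (Finset.mem_coe.2 hj) h

theorem bump_meas (hA : MeasurableSet A) (j : ℕ) : Measurable (bump N A j) :=
  (measurable_const.indicator (hA.inter (cell_meas N j))).add
    (measurable_const.indicator ((cell_meas N j).diff hA))

theorem rho_meas (hA : MeasurableSet A) : Measurable (rho N A) :=
  measurable_const.add (Finset.measurable_sum _ fun j _ => bump_meas hA j)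

theorem rho_bounds (hN : 1 ≤ N)
    (h : ∀ j < N, (volume (A ∩ Icc ((j : ℝ) / N) (((j : ℝ) + 1) / N))).toReal ≤ (51 / 100) / N) (x : ℝ) :
    2 / 3 ≤ rho N A x ∧ rho N A x ≤ 7 / 5 := by
  by_cases hx : x ∈ Ico (0:ℝ) 1
  · rw [← cell_union N hN] at hx
    simp only [mem_iUnion, Finset.mem_range] at hx
    obtain ⟨j, hj, hxj⟩ := hx
    rw [rho_cell hN j hj x hxj]
    by_cases hA : x ∈ A
    · rw [bump_in j x hxj hA]; norm_num
    · rw [bump_out j x hxj hA]
      have := alp_bounds hN j (h j hj)
      constructor <;> linarith [this.1, this.2]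
  · rw [rho_off hN x hx]; norm_num

theorem bump_abs (hN : 1 ≤ N) (j : ℕ)
    (h : (volume (A ∩ Icc ((j : ℝ) / N) (((j : ℝ) + 1) / N))).toReal ≤ (51 / 100) / N) (x : ℝ) :
    |bump N A j x| ≤ 1 := by
  by_cases hx : x ∈ cell N j
  · by_cases hA : x ∈ A
    · rw [bump_in j x hx hA, abs_le]; norm_num
    · rw [bump_out j x hx hA, abs_le]
      have := alp_bounds hN j h
      constructor <;> linarith [this.1, this.2]
  · rw [bump_off j x hx]; simp

theorem vol_split (hA : MeasurableSet A) (j : ℕ) :
    (volume (A ∩ cell N j)).toReal + (volume (cell N j \ A)).toReal = 1 / N := by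
  rw [← cell_vol N j, inter_comm, ← measure_inter_add_sdiff (cell N j) hA, ENNReal.toReal_add]
  · exact ne_top_of_le_ne_top (by unfold cell; simp) (measure_mono inter_subset_left)
  · exact ne_top_of_le_ne_top (by unfold cell; simp) (measure_mono sdiff_subset)

theorem int_ind_const (S : Set ℝ) (hS : MeasurableSet S) (c : ℝ) :
    ∫ x, S.indicator (fun _ => c) x = (volume S).toReal * c := by
  rw [integral_indicator hS, setIntegral_const, smul_eq_mul]; rfl

theorem bump_int (hA : MeasurableSet A) (j : ℕ) : Integrable (bump N A j) := by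
  unfold bump
  have f1 : volume (A ∩ cell N j) ≠ ⊤ := ne_top_of_le_ne_top (by unfold cell; simp) (measure_mono inter_subset_right)
  have f2 : volume (cell N j \ A) ≠ ⊤ := ne_top_of_le_ne_top (by unfold cell; simp) (measure_mono sdiff_subset)
  exact ((integrable_indicator_iff (hA.inter (cell_meas N j))).2 (integrableOn_const f1)).add
    ((integrable_indicator_iff ((cell_meas N j).diff hA)).2 (integrableOn_const f2))

/-- each correction has zero mean -/
theorem bump_mean (hN : 1 ≤ N) (hA : MeasurableSet A) (j : ℕ)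
    (h : (volume (A ∩ Icc ((j : ℝ) / N) (((j : ℝ) + 1) / N))).toReal ≤ (51 / 100) / N) :
    ∫ x, bump N A j x = 0 := by
  have hN0 : (0:ℝ) < N := by exact_mod_cast hN
  have f1 : volume (A ∩ cell N j) ≠ ⊤ := ne_top_of_le_ne_top (by unfold cell; simp) (measure_mono inter_subset_right)
  have f2 : volume (cell N j \ A) ≠ ⊤ := ne_top_of_le_ne_top (by unfold cell; simp) (measure_mono sdiff_subset)
  unfold bump
  rw [integral_add ((integrable_indicator_iff (hA.inter (cell_meas N j))).2 (integrableOn_const f1))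
    ((integrable_indicator_iff ((cell_meas N j).diff hA)).2 (integrableOn_const f2)),
    int_ind_const _ (hA.inter (cell_meas N j)), int_ind_const _ ((cell_meas N j).diff hA)]
  have h1 := vol_split (N := N) hA j
  obtain ⟨h2, h3⟩ := aj_bounds hN j h
  unfold alp
  set a := (volume (A ∩ cell N j)).toReal
  have h4 : (volume (cell N j \ A)).toReal = 1 / N - a := by linarith
  rw [h4]
  have h5 : 1 - N * a ≠ 0 := by linarith
  have e1 : (1 - 2 / 3 * (N * a)) / (1 - N * a) - 1 = ((1 / 3) * (N * a)) / (1 - N * a) := by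
    rw [div_sub_one h5]; congr 1; ring
  have e2 : 1 / (N:ℝ) - a = (1 - N * a) / N := by field_simp
  rw [e1, e2]
  have e3 : (1 - N * a) / N * ((1 / 3) * (N * a) / (1 - N * a)) = (1 / 3) * a := by
    rw [div_mul_div_comm, div_eq_iff (mul_ne_zero hN0.ne' h5)]
    ring
  rw [e3]; ring

theorem ind_bound {N : ℕ} (j : ℕ) (F : ℝ → ℝ) (c : ℝ) (S : Set ℝ)
    (h : ∀ s, |F s| ≤ (cell N j).indicator (fun _ => c) s) (hc : 0 ≤ c) :
    |∫ s in S, F s| ≤ c / N := by
  have h1 : Integrable ((cell N j).indicator (fun _ : ℝ => c)) :=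
    (integrable_indicator_iff (cell_meas N j)).2 (integrableOn_const (by unfold cell; simp))
  have h2 : ‖∫ s in S, F s‖ ≤ ∫ s in S, (cell N j).indicator (fun _ : ℝ => c) s :=
    norm_integral_le_of_norm_le h1.integrableOn (Eventually.of_forall h)
  have h3 : ∫ s in S, (cell N j).indicator (fun _ : ℝ => c) s ≤ ∫ s, (cell N j).indicator (fun _ : ℝ => c) s :=
    setIntegral_le_integral h1 (Eventually.of_forall fun s => by
      by_cases hs : s ∈ cell N j
      · rw [indicator_of_mem hs]; exact hc
      · rw [indicator_of_notMem hs]; exact le_rfl)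
  rw [int_ind_const _ (cell_meas N j), cell_vol] at h3
  have e : 1 / (N:ℝ) * c = c / N := by ring
  rw [e] at h3
  exact h2.trans h3

end

/-- averages of `k (ρ - 1)` are small -/
theorem mean_small {N : ℕ} {A : Set ℝ} (hN : 1 ≤ N) (hA : MeasurableSet A)
    (h : ∀ j < N, (volume (A ∩ Icc ((j : ℝ) / N) (((j : ℝ) + 1) / N))).toReal ≤ (51 / 100) / N)
    (k : ℝ → ℝ) (hk : Continuous k) (K0 e : ℝ) (he : 0 ≤ e)
    (hK0 : ∀ x ∈ Icc (0:ℝ) 1, |k x| ≤ K0)
    (hmod : ∀ x ∈ Icc (0:ℝ) 1, ∀ y ∈ Icc (0:ℝ) 1, |x - y| ≤ 1 / N → |k x - k y| ≤ e) (x : ℝ) :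
    |∫ s in Iic x, k s * (rho N A s - 1)| ≤ e + K0 / N := by
  have hN0 : (0:ℝ) < N := by exact_mod_cast hN
  have hK0' : 0 ≤ K0 := (abs_nonneg _).trans (hK0 0 (by simp))
  have hcellI : ∀ j < N, cell N j ⊆ Icc (0:ℝ) 1 := by
    intro j hj
    have : cell N j ⊆ Ico (0:ℝ) 1 := by
      rw [← cell_union N hN]
      exact fun x hx => mem_biUnion (Finset.mem_coe.2 (Finset.mem_range.2 hj)) hx
    exact this.trans Ico_subset_Icc_self
  have hbk : ∀ j < N, Integrable (fun s => k s * bump N A j s) := by
    intro j hj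
    have h1 : Integrable ((cell N j).indicator (fun _ : ℝ => K0)) :=
      (integrable_indicator_iff (cell_meas N j)).2 (integrableOn_const (by unfold cell; simp))
    refine h1.mono' (hk.measurable.mul (bump_meas hA j)).aestronglyMeasurable ?_
    refine Eventually.of_forall fun s => ?_
    by_cases hs : s ∈ cell N j
    · rw [indicator_of_mem hs, norm_mul]
      have h2 := hK0 s (hcellI j hj hs)
      have h3 := bump_abs hN j (h j hj) s
      calc ‖k s‖ * ‖bump N A j s‖ ≤ K0 * 1 := mul_le_mul h2 h3 (abs_nonneg _) hK0'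
        _ = K0 := mul_one _
    · rw [indicator_of_notMem hs, bump_off j s hs]; simp
  have e1 : ∀ s, k s * (rho N A s - 1) = ∑ j ∈ Finset.range N, k s * bump N A j s := by
    intro s
    unfold rho
    rw [add_sub_cancel_left, Finset.mul_sum]
  simp only [e1]
  rw [integral_finsetSum _ fun j hj => (hbk j (Finset.mem_range.1 hj)).integrableOn]
  refine (Finset.abs_sum_le_sum_abs _ _).trans ?_
  classical
  have key : ∀ j < N, |∫ s in Iic x, k s * bump N A j s| ≤ e / N + (if x ∈ cell N j then K0 / N else 0) := by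
    intro j hj
    have hcpt : j / (N:ℝ) ∈ Icc (0:ℝ) 1 := by
      refine hcellI j hj ⟨le_rfl, ?_⟩
      exact div_lt_div_of_pos_right (by linarith) hN0
    have heN : 0 ≤ e / N := by positivity
    by_cases hx : x ∈ cell N j
    · rw [if_pos hx]
      have := ind_bound (N := N) j (fun s => k s * bump N A j s) K0 (Iic x) ?_ hK0'
      · linarith
      · intro s
        by_cases hs : s ∈ cell N j
        · rw [indicator_of_mem hs, abs_mul]
          calc |k s| * |bump N A j s| ≤ K0 * 1 :=
                mul_le_mul (hK0 s (hcellI j hj hs)) (bump_abs hN j (h j hj) s) (abs_nonneg _) hK0'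
            _ = K0 := mul_one _
        · rw [indicator_of_notMem hs, bump_off j s hs]; simp
    · rw [if_neg hx, add_zero]
      by_cases hx2 : x < j / N
      · have : ∫ s in Iic x, k s * bump N A j s = 0 := by
          refine setIntegral_eq_zero_of_forall_eq_zero fun s hs => ?_
          rw [bump_off j s, mul_zero]
          intro hsc
          exact absurd (hsc.1.trans (mem_Iic.1 hs)) (not_le.2 hx2)
        rw [this, abs_zero]; exact heN
      · have hx3 : ((j:ℝ) + 1) / N ≤ x := by
          by_contra hcon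
          exact hx ⟨not_lt.1 hx2, not_le.1 hcon⟩
        have e5 : ∫ s in Iic x, k s * bump N A j s = ∫ s, k s * bump N A j s := by
          refine setIntegral_eq_integral_of_forall_compl_eq_zero fun s hs => ?_
          rw [bump_off j s, mul_zero]
          intro hsc
          exact hs (mem_Iic.2 (hsc.2.le.trans hx3))
        have e6 : ∫ s, k s * bump N A j s = ∫ s in univ, (k s - k (j / N)) * bump N A j s := by
          rw [Measure.restrict_univ]
          have e7 : (fun s => (k s - k (j / N)) * bump N A j s) =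
            fun s => k s * bump N A j s - k (j / N) * bump N A j s := by funext s; ring
          rw [e7, integral_sub (hbk j hj) ((bump_int hA j).const_mul _), integral_const_mul,
            bump_mean hN hA j (h j hj), mul_zero, sub_zero]
        rw [e5, e6]
        refine ind_bound (N := N) j (fun s => (k s - k (j / N)) * bump N A j s) e univ ?_ he
        intro s
        by_cases hs : s ∈ cell N j
        · rw [indicator_of_mem hs, abs_mul]
          have h5 : |k s - k (j / N)| ≤ e := by
            refine hmod s (hcellI j hj hs) _ hcpt ?_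
            rw [abs_of_nonneg (by linarith [hs.1])]
            have h6 := hs.2
            have e8 : ((j:ℝ) + 1) / N = j / N + 1 / N := by ring
            rw [e8] at h6
            linarith
          calc |k s - k (j / N)| * |bump N A j s| ≤ e * 1 :=
                mul_le_mul h5 (bump_abs hN j (h j hj) s) (abs_nonneg _) he
            _ = e := mul_one _
        · rw [indicator_of_notMem hs, bump_off j s hs]; simp
  refine (Finset.sum_le_sum fun j hj => key j (Finset.mem_range.1 hj)).trans ?_
  rw [Finset.sum_add_distrib, Finset.sum_const, Finset.card_range, nsmul_eq_mul]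
  have e2 : (N:ℝ) * (e / N) = e := by field_simp
  rw [e2]
  have e3 : ∑ j ∈ Finset.range N, (if x ∈ cell N j then K0 / N else 0) ≤ K0 / N := by
    by_cases hx : ∃ j < N, x ∈ cell N j
    · obtain ⟨j, hj, hxj⟩ := hx
      rw [Finset.sum_eq_single j]
      · rw [if_pos hxj]
      · intro i _ hij
        rw [if_neg]
        intro hi
        exact Set.disjoint_left.1 (cell_disj N hN i j hij) hi hxj
      · intro h; exact absurd (Finset.mem_range.2 hj) h
    · push Not at hx
      rw [Finset.sum_eq_zero]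
      · positivity
      · intro j hj
        rw [if_neg (hx j (Finset.mem_range.1 hj))]
  linarith

end Pool.Agent.R223.Net
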