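import Mathlib
import Pool.Agent.R223.Net.L1D

set_option autoImplicit false
open MeasureTheory Filter Topology Metric Set
open scoped Manifold ContDiff

namespace Pool.Agent.R223.Net

variable {N : ℕ} {A : Set ℝ}

theorem cell_in (hN : 1 ≤ N) : ∀ j < N, cell N j ⊆ Icc (0:ℝ) 1 := by
  intro j hj
  have : cell N j ⊆ Ico (0:ℝ) 1 := by
    rw [← cell_union N hN]
    exact fun x hx => mem_biUnion (Finset.mem_coe.2 (Finset.mem_range.2 hj)) hx
  exact this.trans Ico_subset_Icc_self

theorem cell_pt (hN : 1 ≤ N) (j : ℕ) : (j : ℝ) / N ∈ cell N j := by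
  have hN0 : (0:ℝ) < N := by exact_mod_cast hN
  exact ⟨le_rfl, div_lt_div_of_pos_right (by linarith) hN0⟩

theorem cell_dist (j : ℕ) (s : ℝ) (hs : s ∈ cell N j) : |s - j / N| ≤ 1 / N := by
  rw [abs_of_nonneg (by linarith [hs.1])]
  have h6 := hs.2
  have e8 : ((j:ℝ) + 1) / N = j / N + 1 / N := by ring
  rw [e8] at h6
  linarith

/-- energy on one cell, for any measure -/
theorem cell_energy (hN : 1 ≤ N) (hA : MeasurableSet A) (μ : Measure ℝ) [IsFiniteMeasure μ]
    (k : ℝ → ℝ) (j : ℕ) (hj : j < N) (M : ℝ) (hM : ∀ s ∈ cell N j, k s ^ 2 ≤ M) :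
    ∫ s in cell N j, (k s * rho N A s) ^ 2 ∂μ ≤
      M * ((4 / 9) * (μ (A ∩ cell N j)).toReal + alp N A j ^ 2 * (μ (cell N j \ A)).toReal) := by
  have h1 : Integrable ((A ∩ cell N j).indicator (fun _ : ℝ => M * (4 / 9))) μ :=
    (integrable_indicator_iff (hA.inter (cell_meas N j))).2 (integrableOn_const (measure_ne_top _ _))
  have h2 : Integrable ((cell N j \ A).indicator (fun _ : ℝ => M * alp N A j ^ 2)) μ :=
    (integrable_indicator_iff ((cell_meas N j).diff hA)).2 (integrableOn_const (measure_ne_top _ _))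
  have hM0 : 0 ≤ M := (sq_nonneg _).trans (hM _ (cell_pt hN j))
  have h3 : ∫ s in cell N j, (k s * rho N A s) ^ 2 ∂μ ≤
      ∫ s in cell N j, ((A ∩ cell N j).indicator (fun _ : ℝ => M * (4 / 9)) s +
        (cell N j \ A).indicator (fun _ : ℝ => M * alp N A j ^ 2) s) ∂μ := by
    refine integral_mono_of_nonneg (Eventually.of_forall fun s => sq_nonneg _) (h1.add h2).integrableOn ?_
    filter_upwards [ae_restrict_mem (cell_meas N j)] with s hs
    rw [rho_cell hN j hj s hs]
    by_cases hsA : s ∈ A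
    · rw [bump_in j s hs hsA, indicator_of_mem (show s ∈ A ∩ cell N j from ⟨hsA, hs⟩),
        indicator_of_notMem (fun h => h.2 hsA)]
      have := hM s hs
      nlinarith
    · rw [bump_out j s hs hsA, indicator_of_notMem (fun h => hsA h.1),
        indicator_of_mem (show s ∈ cell N j \ A from ⟨hs, hsA⟩)]
      have := hM s hs
      have e : (k s * (1 + (alp N A j - 1))) ^ 2 = k s ^ 2 * alp N A j ^ 2 := by ring
      rw [e, zero_add]
      exact mul_le_mul_of_nonneg_right this (sq_nonneg _)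
  refine h3.trans ?_
  have h4 : ∫ s in cell N j, ((A ∩ cell N j).indicator (fun _ : ℝ => M * (4 / 9)) s +
        (cell N j \ A).indicator (fun _ : ℝ => M * alp N A j ^ 2) s) ∂μ ≤
      ∫ s, ((A ∩ cell N j).indicator (fun _ : ℝ => M * (4 / 9)) s +
        (cell N j \ A).indicator (fun _ : ℝ => M * alp N A j ^ 2) s) ∂μ := by
    refine setIntegral_le_integral (h1.add h2) (Eventually.of_forall fun s => ?_)
    refine add_nonneg (indicator_nonneg (fun _ _ => by positivity) s)
      (indicator_nonneg (fun _ _ => by positivity) s)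
  refine h4.trans ?_
  rw [integral_add h1 h2, integral_indicator (hA.inter (cell_meas N j)),
    integral_indicator ((cell_meas N j).diff hA), setIntegral_const, setIntegral_const,
    smul_eq_mul, smul_eq_mul]
  simp only [Measure.real]
  exact le_of_eq (by ring)

theorem energy_rho (hN : 1 ≤ N) (hA : MeasurableSet A)
    (h : ∀ j < N, (volume (A ∩ Icc ((j : ℝ) / N) (((j : ℝ) + 1) / N))).toReal ≤ (51 / 100) / N)
    (ν : Measure ℝ) [IsFiniteMeasure ν] (hνA : ν Aᶜ = 0)
    (hν : ∀ j < N, (ν (Icc ((j : ℝ) / N) (((j : ℝ) + 1) / N))).toReal ≤ (51 / 100) / N)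
    (k : ℝ → ℝ) (hk : Continuous k) (K0 e : ℝ) (he : 0 ≤ e)
    (hK0 : ∀ x ∈ Icc (0:ℝ) 1, |k x| ≤ K0)
    (hmod : ∀ x ∈ Icc (0:ℝ) 1, ∀ y ∈ Icc (0:ℝ) 1, |x - y| ≤ 1 / N → |k x - k y| ≤ e) :
    (∫ s in Ico (0:ℝ) 1, (k s * rho N A s) ^ 2) + (∫ s in Ico (0:ℝ) 1, (k s * rho N A s) ^ 2 ∂ν) ≤
      (27 / 20) * ((∫ s in Ico (0:ℝ) 1, k s ^ 2) + 4 * K0 * e) := by
  have hN0 : (0:ℝ) < N := by exact_mod_cast hN
  have hK0' : 0 ≤ K0 := (abs_nonneg _).trans (hK0 0 (by simp))
  set lam : Measure ℝ := volume.restrict (Icc (0:ℝ) 1) with hlam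
  haveI : IsFiniteMeasure lam := ⟨by rw [hlam, Measure.restrict_apply_univ]; simp⟩
  have hlc : ∀ j < N, ∀ S : Set ℝ, S ⊆ cell N j → MeasurableSet S → lam S = volume S := by
    intro j hj S hS hSm
    rw [hlam, Measure.restrict_apply hSm, inter_eq_left.2 (hS.trans (cell_in hN j hj))]
  have hrm : Measurable (fun s => (k s * rho N A s) ^ 2) := (hk.measurable.mul (rho_meas hA)).pow_const 2
  have hrb : ∀ s ∈ Icc (0:ℝ) 1, ‖(k s * rho N A s) ^ 2‖ ≤ (K0 * (7 / 5)) ^ 2 := by
    intro s hs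
    rw [norm_pow, norm_mul]
    refine pow_le_pow_left₀ (by positivity) ?_ 2
    have := rho_bounds hN h s
    refine mul_le_mul (hK0 s hs) ?_ (norm_nonneg _) hK0'
    rw [Real.norm_eq_abs, abs_of_nonneg (by linarith [this.1])]; exact this.2
  have hint : ∀ (μ : Measure ℝ) [IsFiniteMeasure μ], IntegrableOn (fun s => (k s * rho N A s) ^ 2) (Icc (0:ℝ) 1) μ := by
    intro μ _
    refine Measure.integrableOn_of_bounded (M := (K0 * (7 / 5)) ^ 2) (measure_ne_top _ _) hrm.aestronglyMeasurable ?_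
    filter_upwards [ae_restrict_mem measurableSet_Icc] with s hs using hrb s hs
  have hsplit : ∀ (μ : Measure ℝ) [IsFiniteMeasure μ], ∫ s in Ico (0:ℝ) 1, (k s * rho N A s) ^ 2 ∂μ =
      ∑ j ∈ Finset.range N, ∫ s in cell N j, (k s * rho N A s) ^ 2 ∂μ := by
    intro μ _
    rw [← cell_union N hN]
    refine integral_biUnion_finset _ (fun j _ => cell_meas N j) ?_ ?_
    · intro i _ j _ hij
      exact cell_disj N hN i j hij
    · intro j hj
      exact (hint μ).mono_set (cell_in hN j (Finset.mem_range.1 hj))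
  have hlamI : ∫ s in Ico (0:ℝ) 1, (k s * rho N A s) ^ 2 = ∫ s in Ico (0:ℝ) 1, (k s * rho N A s) ^ 2 ∂lam := by
    rw [hlam, Measure.restrict_restrict measurableSet_Ico, inter_eq_left.2 Ico_subset_Icc_self]
  have hk2 : ∫ s in Ico (0:ℝ) 1, k s ^ 2 = ∑ j ∈ Finset.range N, ∫ s in cell N j, k s ^ 2 := by
    rw [← cell_union N hN]
    refine integral_biUnion_finset _ (fun j _ => cell_meas N j) ?_ ?_
    · intro i _ j _ hij
      exact cell_disj N hN i j hij
    · intro j hj
      exact ((hk.pow 2).continuousOn.integrableOn_compact isCompact_Icc).mono_set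
        (cell_in hN j (Finset.mem_range.1 hj))
  rw [hlamI, hsplit lam, hsplit ν, hk2, ← Finset.sum_add_distrib]
  have hfin : (27 / 20 : ℝ) * (∑ j ∈ Finset.range N, ∫ s in cell N j, k s ^ 2) + (27 / 20) * (4 * K0 * e) =
      ∑ j ∈ Finset.range N, ((27 / 20) * ((∫ s in cell N j, k s ^ 2) + 4 * K0 * e / N)) := by
    rw [← Finset.mul_sum, Finset.sum_add_distrib, Finset.sum_const, Finset.card_range, nsmul_eq_mul]
    have : (N:ℝ) * (4 * K0 * e / N) = 4 * K0 * e := by field_simp
    rw [this]; ring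
  rw [mul_add, hfin]
  refine Finset.sum_le_sum fun j hj => ?_
  have hj' := Finset.mem_range.1 hj
  have hcp := cell_in hN j hj' (cell_pt hN j)
  set M : ℝ := k (j / N) ^ 2 + 2 * K0 * e with hMdef
  have hdiff : ∀ s ∈ cell N j, |k s ^ 2 - k (j / N) ^ 2| ≤ 2 * K0 * e := by
    intro s hs
    have h1 : |k s - k (j / N)| ≤ e := hmod s (cell_in hN j hj' hs) _ hcp (cell_dist j s hs)
    have h2 := hK0 s (cell_in hN j hj' hs)
    have h3 := hK0 _ hcp
    have e1 : k s ^ 2 - k (j / N) ^ 2 = (k s - k (j / N)) * (k s + k (j / N)) := by ring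
    rw [e1, abs_mul]
    have h4 : |k s + k (j / N)| ≤ 2 * K0 := (abs_add_le _ _).trans (by linarith)
    calc |k s - k (j / N)| * |k s + k (j / N)| ≤ e * (2 * K0) := mul_le_mul h1 h4 (abs_nonneg _) he
      _ = 2 * K0 * e := by ring
  have hM : ∀ s ∈ cell N j, k s ^ 2 ≤ M := by
    intro s hs
    have := (abs_le.1 (hdiff s hs)).2
    rw [hMdef]; linarith
  have hM0 : 0 ≤ M := by positivity
  have c1 := cell_energy hN hA lam k j hj' M hM
  have c2 := cell_energy hN hA ν k j hj' M hM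
  rw [hlc j hj' _ inter_subset_right (hA.inter (cell_meas N j)),
    hlc j hj' _ sdiff_subset ((cell_meas N j).diff hA)] at c1
  have hν0 : (ν (cell N j \ A)).toReal = 0 := by
    have : ν (cell N j \ A) = 0 := measure_mono_null (fun x hx => hx.2) hνA
    rw [this]; rfl
  rw [hν0, mul_zero, add_zero] at c2
  have hν1 : (ν (A ∩ cell N j)).toReal ≤ (51 / 100) / N :=
    (ENNReal.toReal_mono (measure_ne_top _ _) (measure_mono (inter_subset_right.trans (cell_sub N j)))).trans (hν j hj')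
  have hvs := vol_split (N := N) hA j
  obtain ⟨a1, a2⟩ := aj_bounds hN j (h j hj')
  -- the cell constant
  have hcell : (4 / 9) * (volume (A ∩ cell N j)).toReal + alp N A j ^ 2 * (volume (cell N j \ A)).toReal +
      (4 / 9) * ((51 / 100) / N) ≤ (27 / 20) / N := by
    unfold alp
    set a := (volume (A ∩ cell N j)).toReal
    have h4 : (volume (cell N j \ A)).toReal = (1 - N * a) / N := by
      have : (1 - N * a) / N = 1 / N - a := by field_simp
      rw [this]; linarith
    rw [h4]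
    have h5 : 0 < 1 - N * a := by linarith
    have e1 : ((1 - 2 / 3 * (N * a)) / (1 - N * a)) ^ 2 * ((1 - N * a) / N) =
        ((1 - 2 / 3 * (N * a)) ^ 2 / (1 - N * a)) / N := by
      rw [div_pow]; field_simp
    have e2 : (4 / 9) * a = ((4 / 9) * (N * a)) / N := by field_simp
    rw [e1, e2, ← add_div, mul_div_assoc', ← add_div]
    refine div_le_div_of_nonneg_right ?_ hN0.le
    have h6 : (1 - 2 / 3 * (N * a)) ^ 2 / (1 - N * a) ≤ 1.1156534 - (4 / 9) * (N * a) := by
      rw [div_le_iff₀ h5]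
      nlinarith
    linarith
  have hk2j : M / N ≤ (∫ s in cell N j, k s ^ 2) + 4 * K0 * e / N := by
    have h1 : ∫ s in cell N j, (k (j / N) ^ 2 - 2 * K0 * e) ≤ ∫ s in cell N j, k s ^ 2 := by
      refine setIntegral_mono_on (integrableOn_const (by unfold cell; simp))
        (((hk.pow 2).continuousOn.integrableOn_compact isCompact_Icc).mono_set (cell_in hN j hj'))
        (cell_meas N j) ?_
      intro s hs
      have := (abs_le.1 (hdiff s hs)).1
      linarith
    rw [setIntegral_const, smul_eq_mul, Measure.real, cell_vol] at h1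
    have e3 : M / N = 1 / N * (k (j / N) ^ 2 - 2 * K0 * e) + 4 * K0 * e / N := by
      rw [hMdef]; ring
    rw [e3]; linarith
  calc (∫ s in cell N j, (k s * rho N A s) ^ 2 ∂lam) + ∫ s in cell N j, (k s * rho N A s) ^ 2 ∂ν
      ≤ M * ((4 / 9) * (volume (A ∩ cell N j)).toReal + alp N A j ^ 2 * (volume (cell N j \ A)).toReal) +
        M * ((4 / 9) * (ν (A ∩ cell N j)).toReal) := add_le_add c1 c2
    _ ≤ M * ((4 / 9) * (volume (A ∩ cell N j)).toReal + alp N A j ^ 2 * (volume (cell N j \ A)).toReal) +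
        M * ((4 / 9) * ((51 / 100) / N)) := by
        have := mul_le_mul_of_nonneg_left hν1 (by positivity : 0 ≤ M * (4 / 9))
        linarith
    _ = M * ((4 / 9) * (volume (A ∩ cell N j)).toReal + alp N A j ^ 2 * (volume (cell N j \ A)).toReal +
      (4 / 9) * ((51 / 100) / N)) := by ring
    _ ≤ M * ((27 / 20) / N) := mul_le_mul_of_nonneg_left hcell hM0
    _ = (27 / 20) * (M / N) := by ring
    _ ≤ _ := mul_le_mul_of_nonneg_left hk2j (by norm_num)

end Pool.Agent.R223.Net
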