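import Mathlib
import Pool.Agent.R223.Net.L1Db

set_option autoImplicit false
open MeasureTheory Filter Topology Metric Set
open scoped Manifold ContDiff

namespace Pool.Agent.R223.Net

/-- uniform approximation of a continuous function by a smooth one -/
theorem smooth_unif (h : ℝ → ℝ) (hc : Continuous h) (ε : ℝ) (hε : 0 < ε) :
    ∃ g : ℝ → ℝ, ContDiff ℝ (⊤ : ℕ∞) g ∧ ∀ x, |g x - h x| < ε := by
  obtain ⟨g, hg⟩ := exists_contMDiffMap_forall_mem_convex_of_local_const (n := (⊤ : ℕ∞)) 𝓘(ℝ, ℝ)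
    (t := fun x => ball (h x) ε) (fun x => convex_ball _ _) (by
      intro x
      refine ⟨h x, ?_⟩
      have := hc.tendsto x
      filter_upwards [this (ball_mem_nhds (h x) hε)] with y hy
      rw [mem_ball, dist_comm]; exact hy)
  refine ⟨g, g.contMDiff.contDiff, fun x => ?_⟩
  have := hg x
  rwa [mem_ball, Real.dist_eq] at this

theorem clamp_close (r h : ℝ) (h1 : 1 / 2 ≤ r) (h2 : r ≤ 3 / 2) :
    |max (1 / 2) (min (3 / 2) h) - r| ≤ |r - h| := by
  rcases le_total h (3 / 2) with a | a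
  · rw [min_eq_right a]
    rcases le_total (1 / 2) h with b | b
    · rw [max_eq_right b, abs_sub_comm]
    · rw [max_eq_left b, abs_of_nonpos (by linarith), abs_of_nonneg (by linarith)]; linarith
  · rw [min_eq_left a, max_eq_right (by norm_num), abs_of_nonneg (by linarith), abs_of_nonpos (by linarith)]
    linarith

theorem smooth_approx (κ : Measure ℝ) [IsFiniteMeasure κ] (r : ℝ → ℝ) (hm : Measurable r)
    (hb : ∀ x, 1 / 2 ≤ r x ∧ r x ≤ 3 / 2) (ε : ℝ) (hε : 0 < ε) :
    ∃ g : ℝ → ℝ, ContDiff ℝ (⊤ : ℕ∞) g ∧ (∀ x, 0 ≤ g x ∧ g x ≤ 2) ∧ ∫ x, |g x - r x| ∂κ ≤ ε := by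
  have hri : Integrable r κ := by
    refine Integrable.of_bound hm.aestronglyMeasurable (3 / 2) (Eventually.of_forall fun x => ?_)
    rw [Real.norm_eq_abs, abs_of_nonneg (by linarith [(hb x).1])]; exact (hb x).2
  obtain ⟨h, -, h1, h2, h3⟩ := hri.exists_hasCompactSupport_integral_sub_le (half_pos hε)
  set K := (κ univ).toReal with hK
  have hK0 : 0 ≤ K := ENNReal.toReal_nonneg
  set h' : ℝ → ℝ := fun x => max (1 / 2) (min (3 / 2) (h x)) with hh'
  have hc' : Continuous h' := continuous_const.max (continuous_const.min h2)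
  obtain ⟨g, g1, g2⟩ := smooth_unif h' hc' (min (1 / 4) (ε / (2 * (K + 1)))) (by positivity)
  have hh'b : ∀ x, 1 / 2 ≤ h' x ∧ h' x ≤ 3 / 2 := fun x =>
    ⟨le_max_left _ _, max_le (by norm_num) (min_le_left _ _)⟩
  refine ⟨g, g1, fun x => ?_, ?_⟩
  · have h4 := abs_lt.1 ((g2 x).trans_le (min_le_left _ _))
    have h5 := hh'b x
    constructor <;> linarith [h4.1, h4.2, h5.1, h5.2]
  · have hpt : ∀ x, |g x - r x| ≤ ‖r x - h x‖ + ε / (2 * (K + 1)) := by
      intro x
      have h4 := ((g2 x).trans_le (min_le_right _ _)).le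
      have h5 := clamp_close (r x) (h x) (hb x).1 (hb x).2
      have h6 : |g x - r x| ≤ |g x - h' x| + |h' x - r x| := by
        have := abs_add_le (g x - h' x) (h' x - r x)
        rwa [sub_add_sub_cancel] at this
      rw [Real.norm_eq_abs]
      linarith
    have i1 : Integrable (fun x => ‖r x - h x‖) κ := (hri.sub h3).norm
    have i2 : Integrable (fun _ : ℝ => ε / (2 * (K + 1))) κ := integrable_const _
    have i12 : Integrable (fun x => ‖r x - h x‖ + ε / (2 * (K + 1))) κ := i1.add i2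
    refine (integral_mono_of_nonneg (Eventually.of_forall fun x => abs_nonneg _) i12
      (Eventually.of_forall hpt)).trans ?_
    rw [integral_add i1 i2, integral_const, smul_eq_mul, Measure.real, ← hK]
    have h7 : K * (ε / (2 * (K + 1))) ≤ ε / 2 := by
      have : K * (ε / (2 * (K + 1))) = (ε / 2) * (K / (K + 1)) := by field_simp
      rw [this]
      have h8 : K / (K + 1) ≤ 1 := by rw [div_le_one (by positivity)]; linarith
      nlinarith
    linarith

/-- the one-dimensional lemma -/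
theorem oneD (k : ℝ → ℝ) (hk : Continuous k) (η : ℝ) (hη : 0 < η) : ∃ N : ℕ, 1 ≤ N ∧
    ∀ (ν : Measure ℝ) [IsFiniteMeasure ν] (A : Set ℝ), MeasurableSet A → ν Aᶜ = 0 → ν (Ioo 0 1)ᶜ = 0 →
    (∀ j < N, (ν (Icc ((j : ℝ) / N) (((j : ℝ) + 1) / N))).toReal ≤ (51 / 100) / N) →
    (∀ j < N, (volume (A ∩ Icc ((j : ℝ) / N) (((j : ℝ) + 1) / N))).toReal ≤ (51 / 100) / N) →
    ∃ g : ℝ → ℝ, ContDiff ℝ (⊤ : ℕ∞) g ∧ (∀ x, 0 ≤ g x ∧ g x ≤ 2) ∧
      (∀ x ∈ Icc (-3 : ℝ) 3, |∫ s in (0:ℝ)..x, k s * (g s - 1)| ≤ η) ∧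
      (∫ x in Ioo (0:ℝ) 1, (k x * g x) ^ 2) + (∫ x, (k x * g x) ^ 2 ∂ν) ≤
        (27 / 20) * (∫ x in Ioo (0:ℝ) 1, k x ^ 2) + η := by
  -- bound and modulus of continuity
  obtain ⟨K0, hK0⟩ := (isCompact_Icc (a := (-4:ℝ)) (b := 4)).exists_bound_of_continuousOn hk.continuousOn
  have hK0' : 0 ≤ K0 := (norm_nonneg _).trans (hK0 0 (by norm_num))
  obtain ⟨e, he0, he1, he2⟩ : ∃ e : ℝ, 0 < e ∧ e ≤ η / 4 ∧ (27 / 20) * (4 * K0 * e) ≤ η / 2 := by
    refine ⟨min (η / 4) (η / (12 * (K0 + 1))), by positivity, min_le_left _ _, ?_⟩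
    have h1 := min_le_right (η / 4) (η / (12 * (K0 + 1)))
    have h2 : (27 / 20) * (4 * K0 * (η / (12 * (K0 + 1)))) ≤ η / 2 := by
      have : (27 / 20 : ℝ) * (4 * K0 * (η / (12 * (K0 + 1)))) = (9 / 20) * η * (K0 / (K0 + 1)) := by
        field_simp; ring
      rw [this]
      have h8 : K0 / (K0 + 1) ≤ 1 := by rw [div_le_one (by positivity)]; linarith
      have : 0 ≤ K0 / (K0 + 1) := by positivity
      nlinarith
    refine le_trans ?_ h2
    have : 4 * K0 * min (η / 4) (η / (12 * (K0 + 1))) ≤ 4 * K0 * (η / (12 * (K0 + 1))) :=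
      mul_le_mul_of_nonneg_left h1 (by positivity)
    linarith
  have huc : UniformContinuousOn k (Icc (0:ℝ) 1) := isCompact_Icc.uniformContinuousOn_of_continuous hk.continuousOn
  rw [Metric.uniformContinuousOn_iff_le] at huc
  obtain ⟨δ, hδ, hmod⟩ := huc e he0
  obtain ⟨N, hN⟩ : ∃ N : ℕ, max (1 / δ) (4 * K0 / η) + 1 < N := exists_nat_gt _
  have hN1 : (1:ℝ) ≤ N := by
    have : 0 ≤ max (1 / δ) (4 * K0 / η) := le_max_of_le_left (by positivity)
    linarith
  have hN0 : (0:ℝ) < N := by linarith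
  have hNδ : 1 / (N:ℝ) ≤ δ := by
    rw [div_le_iff₀ hN0]
    have h1 : 1 / δ ≤ N := by linarith [le_max_left (1 / δ) (4 * K0 / η)]
    rw [div_le_iff₀ hδ] at h1
    linarith
  have hNK : K0 / N ≤ η / 4 := by
    rw [div_le_iff₀ hN0]
    have h1 : 4 * K0 / η ≤ N := by linarith [le_max_right (1 / δ) (4 * K0 / η)]
    rw [div_le_iff₀ hη] at h1
    linarith
  have hN1' : 1 ≤ N := by exact_mod_cast hN1
  refine ⟨N, hN1', ?_⟩
  intro ν hνf A hA hνA hνI hν h
  have hmod' : ∀ x ∈ Icc (0:ℝ) 1, ∀ y ∈ Icc (0:ℝ) 1, |x - y| ≤ 1 / N → |k x - k y| ≤ e := by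
    intro x hx y hy hxy
    have := hmod x hx y hy (by rw [Real.dist_eq]; exact hxy.trans hNδ)
    rwa [Real.dist_eq] at this
  have hK1 : ∀ x ∈ Icc (0:ℝ) 1, |k x| ≤ K0 := fun x hx =>
    hK0 x ⟨by linarith [hx.1], by linarith [hx.2]⟩
  have hmean := mean_small hN1' hA h k hk K0 e he0.le hK1 hmod'
  have hen := energy_rho hN1' hA h ν hνA hν k hk K0 e he0.le hK1 hmod'
  set r := rho N A with hr
  have hrb : ∀ x, 2 / 3 ≤ r x ∧ r x ≤ 7 / 5 := fun x => rho_bounds hN1' h x
  have hrm : Measurable r := rho_meas hA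
  set κ : Measure ℝ := volume.restrict (Icc (-4:ℝ) 4) + ν with hκ
  have hf1 : IsFiniteMeasure (volume.restrict (Icc (-4:ℝ) 4)) :=
    ⟨by rw [Measure.restrict_apply_univ]; simp⟩
  have hf2 : IsFiniteMeasure κ := by rw [hκ]; infer_instance
  obtain ⟨ε, hε0, hε1, hε2⟩ : ∃ ε : ℝ, 0 < ε ∧ K0 * ε ≤ η / 4 ∧ 4 * K0 ^ 2 * ε ≤ η / 4 := by
    refine ⟨min (η / (4 * (K0 + 1))) (η / (16 * (K0 ^ 2 + 1))), by positivity, ?_, ?_⟩
    · have h1 := min_le_left (η / (4 * (K0 + 1))) (η / (16 * (K0 ^ 2 + 1)))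
      refine (mul_le_mul_of_nonneg_left h1 hK0').trans ?_
      have : K0 * (η / (4 * (K0 + 1))) = (η / 4) * (K0 / (K0 + 1)) := by field_simp
      rw [this]
      have h8 : K0 / (K0 + 1) ≤ 1 := by rw [div_le_one (by positivity)]; linarith
      nlinarith
    · have h1 := min_le_right (η / (4 * (K0 + 1))) (η / (16 * (K0 ^ 2 + 1)))
      refine (mul_le_mul_of_nonneg_left h1 (by positivity)).trans ?_
      have : 4 * K0 ^ 2 * (η / (16 * (K0 ^ 2 + 1))) = (η / 4) * (K0 ^ 2 / (K0 ^ 2 + 1)) := by field_simp; ring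
      rw [this]
      have h8 : K0 ^ 2 / (K0 ^ 2 + 1) ≤ 1 := by rw [div_le_one (by positivity)]; linarith
      nlinarith
  obtain ⟨g, g1, g2, g3⟩ := smooth_approx κ r hrm (fun x => ⟨by linarith [(hrb x).1], by linarith [(hrb x).2]⟩) ε hε0
  -- integrability of the difference
  have hdm : Measurable (fun x => |g x - r x|) := (g1.continuous.measurable.sub hrm).abs
  have hdb : ∀ x, ‖|g x - r x|‖ ≤ 2 := by
    intro x
    rw [Real.norm_eq_abs, abs_abs, abs_le]
    constructor <;> linarith [(g2 x).1, (g2 x).2, (hrb x).1, (hrb x).2]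
  have hdi : ∀ (μ : Measure ℝ) [IsFiniteMeasure μ], Integrable (fun x => |g x - r x|) μ := by
    intro μ _
    exact Integrable.of_bound hdm.aestronglyMeasurable 2 (Eventually.of_forall hdb)
  have hsum : (∫ x in Icc (-4:ℝ) 4, |g x - r x|) + ∫ x, |g x - r x| ∂ν ≤ ε := by
    rw [← integral_add_measure (hdi _) (hdi _)]; exact g3
  have hs1 : 0 ≤ ∫ x in Icc (-4:ℝ) 4, |g x - r x| := integral_nonneg fun x => abs_nonneg _
  have hs2 : 0 ≤ ∫ x, |g x - r x| ∂ν := integral_nonneg fun x => abs_nonneg _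
  refine ⟨g, g1, g2, ?_, ?_⟩
  · intro x hx
    -- difference with rho
    have hint1 : ∀ a b : ℝ, a ∈ Icc (-4:ℝ) 4 → b ∈ Icc (-4:ℝ) 4 → IntervalIntegrable (fun s => k s * (r s - 1)) volume a b := by
      intro a b ha hb
      rw [intervalIntegrable_iff]
      have : IntegrableOn (fun s => k s * (r s - 1)) (Icc (-4:ℝ) 4) := by
        refine Measure.integrableOn_of_bounded (M := K0 * 1) (by simp)
          (hk.measurable.mul (hrm.sub_const 1)).aestronglyMeasurable ?_
        filter_upwards [ae_restrict_mem measurableSet_Icc] with s hs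
        rw [norm_mul]
        refine mul_le_mul (hK0 s hs) ?_ (norm_nonneg _) hK0'
        rw [Real.norm_eq_abs, abs_le]
        constructor <;> linarith [(hrb s).1, (hrb s).2]
      exact this.mono_set (uIoc_subset_uIcc.trans (uIcc_subset_Icc ha hb))
    have hint2 : IntervalIntegrable (fun s => k s * (g s - r s)) volume 0 x := by
      have h1 : IntervalIntegrable (fun s => k s * (g s - 1)) volume 0 x :=
        (hk.mul (g1.continuous.sub continuous_const)).intervalIntegrable _ _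
      have h2 := hint1 0 x (by norm_num) ⟨by linarith [hx.1], by linarith [hx.2]⟩
      refine (h1.sub h2).congr (fun s _ => ?_)
      ring
    have e1 : ∫ s in (0:ℝ)..x, k s * (g s - 1) =
        (∫ s in (0:ℝ)..x, k s * (r s - 1)) + ∫ s in (0:ℝ)..x, k s * (g s - r s) := by
      rw [← intervalIntegral.integral_add (hint1 0 x (by norm_num) ⟨by linarith [hx.1], by linarith [hx.2]⟩) hint2]
      congr 1; funext s; ring
    have b1 : |∫ s in (0:ℝ)..x, k s * (r s - 1)| ≤ e + K0 / N := by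
      rcases le_total 0 x with h0 | h0
      · have h1 : ∫ s in (0:ℝ)..x, k s * (r s - 1) = ∫ s in Iic x, k s * (r s - 1) := by
          rw [intervalIntegral.integral_of_le h0]
          have h2 : Iic x = Iic 0 ∪ Ioc 0 x := (Iic_union_Ioc_eq_Iic h0).symm
          have i3 : IntegrableOn (fun s => k s * (r s - 1)) (Iic 0) := by
            rw [integrableOn_Iic_iff_integrableOn_Iio]
            have hz : IntegrableOn (fun _ : ℝ => (0:ℝ)) (Iio 0) := integrableOn_zero
            refine hz.congr_fun (fun s hs => ?_) measurableSet_Iio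
            have : r s = 1 := rho_off hN1' s (fun h => absurd h.1 (not_le.2 hs))
            rw [this]; ring
          rw [h2, setIntegral_union (Iic_disjoint_Ioc le_rfl) measurableSet_Ioc i3
            ((intervalIntegrable_iff_integrableOn_Ioc_of_le h0).1 (hint1 0 x (by norm_num) ⟨by linarith, by linarith [hx.2]⟩))]
          have h3 : ∫ s in Iic (0:ℝ), k s * (r s - 1) = 0 := by
            rw [← Measure.restrict_congr_set (Iio_ae_eq_Iic (a := (0:ℝ)) (μ := volume))]
            refine setIntegral_eq_zero_of_forall_eq_zero fun s hs => ?_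
            have : r s = 1 := rho_off hN1' s (fun h => absurd h.1 (not_le.2 hs))
            rw [this]; ring
          rw [h3, zero_add]
        rw [h1]; exact hmean x
      · have h1 : ∫ s in (0:ℝ)..x, k s * (r s - 1) = 0 := by
          rw [intervalIntegral.integral_symm, intervalIntegral.integral_of_le h0,
            ← Measure.restrict_congr_set (Ioo_ae_eq_Ioc (a := x) (b := (0:ℝ)) (μ := volume)), neg_eq_zero]
          refine setIntegral_eq_zero_of_forall_eq_zero fun s hs => ?_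
          have : r s = 1 := rho_off hN1' s (fun h => absurd h.1 (not_le.2 hs.2))
          rw [this]; ring
        rw [h1, abs_zero]; positivity
    have b2 : |∫ s in (0:ℝ)..x, k s * (g s - r s)| ≤ K0 * ε := by
      have hI : uIoc 0 x ⊆ Icc (-4:ℝ) 4 :=
        uIoc_subset_uIcc.trans (uIcc_subset_Icc (by norm_num) ⟨by linarith [hx.1], by linarith [hx.2]⟩)
      have h1 : ‖∫ s in (0:ℝ)..x, k s * (g s - r s)‖ ≤ ∫ s in uIoc 0 x, ‖k s * (g s - r s)‖ :=
        intervalIntegral.norm_integral_le_integral_norm_uIoc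
      have h2 : ∫ s in uIoc 0 x, ‖k s * (g s - r s)‖ ≤ ∫ s in uIoc 0 x, K0 * |g s - r s| := by
        refine setIntegral_mono_on ?_ ?_ measurableSet_uIoc ?_
        · have := (intervalIntegrable_iff.1 hint2).norm
          exact this
        · exact ((hdi (volume.restrict (Icc (-4:ℝ) 4))).const_mul K0).mono_measure (Measure.restrict_mono hI le_rfl)
        · intro s hs
          rw [norm_mul]
          exact mul_le_mul_of_nonneg_right (hK0 s (hI hs)) (norm_nonneg _)
      have h3 : ∫ s in uIoc 0 x, K0 * |g s - r s| ≤ ∫ s in Icc (-4:ℝ) 4, K0 * |g s - r s| := by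
        refine setIntegral_mono_set ((hdi (volume.restrict (Icc (-4:ℝ) 4))).const_mul K0)
          (Eventually.of_forall fun s => by positivity) (Eventually.of_forall hI)
      have h3b : ∫ s in Icc (-4:ℝ) 4, K0 * |g s - r s| = K0 * ∫ s in Icc (-4:ℝ) 4, |g s - r s| :=
        integral_const_mul _ _
      rw [h3b] at h3
      have h4 : K0 * ∫ s in Icc (-4:ℝ) 4, |g s - r s| ≤ K0 * ε :=
        mul_le_mul_of_nonneg_left (by linarith) hK0'
      exact h1.trans (h2.trans (h3.trans h4))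
    rw [e1]
    refine (abs_add_le _ _).trans ?_
    linarith
  · -- the energy
    have hsqd : ∀ x ∈ Icc (0:ℝ) 1, (k x * g x) ^ 2 ≤ (k x * r x) ^ 2 + 4 * K0 ^ 2 * |g x - r x| := by
      intro x hx
      have h1 : (k x * g x) ^ 2 = (k x * r x) ^ 2 + k x ^ 2 * ((g x - r x) * (g x + r x)) := by ring
      rw [h1]
      have h2 : k x ^ 2 ≤ K0 ^ 2 := by
        rw [← sq_abs]; exact pow_le_pow_left₀ (abs_nonneg _) (hK1 x hx) 2
      have h3 : (g x - r x) * (g x + r x) ≤ |g x - r x| * 4 := by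
        have h4 : 0 ≤ g x + r x := by linarith [(g2 x).1, (hrb x).1]
        calc (g x - r x) * (g x + r x) ≤ |g x - r x| * (g x + r x) :=
              mul_le_mul_of_nonneg_right (le_abs_self _) h4
          _ ≤ |g x - r x| * 4 := mul_le_mul_of_nonneg_left (by linarith [(g2 x).2, (hrb x).2]) (abs_nonneg _)
      have h5 : k x ^ 2 * ((g x - r x) * (g x + r x)) ≤ k x ^ 2 * (|g x - r x| * 4) :=
        mul_le_mul_of_nonneg_left h3 (sq_nonneg _)
      have h6 : k x ^ 2 * (|g x - r x| * 4) ≤ K0 ^ 2 * (|g x - r x| * 4) :=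
        mul_le_mul_of_nonneg_right h2 (by positivity)
      linarith
    have hgen : ∀ (μ : Measure ℝ) [IsFiniteMeasure μ], ∫ x in Ico (0:ℝ) 1, (k x * g x) ^ 2 ∂μ ≤
        (∫ x in Ico (0:ℝ) 1, (k x * r x) ^ 2 ∂μ) + 4 * K0 ^ 2 * ∫ x in Ico (0:ℝ) 1, |g x - r x| ∂μ := by
      intro μ _
      have i1 : IntegrableOn (fun x => (k x * r x) ^ 2) (Ico (0:ℝ) 1) μ := by
        refine Measure.integrableOn_of_bounded (M := (K0 * (7 / 5)) ^ 2) (measure_ne_top _ _)
          ((hk.measurable.mul hrm).pow_const 2).aestronglyMeasurable ?_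
        filter_upwards [ae_restrict_mem measurableSet_Ico] with s hs
        rw [norm_pow, norm_mul]
        refine pow_le_pow_left₀ (by positivity) ?_ 2
        refine mul_le_mul (hK1 s (Ico_subset_Icc_self hs)) ?_ (norm_nonneg _) hK0'
        rw [Real.norm_eq_abs, abs_of_nonneg (by linarith [(hrb s).1])]; exact (hrb s).2
      have i2 : IntegrableOn (fun x => 4 * K0 ^ 2 * |g x - r x|) (Ico (0:ℝ) 1) μ :=
        ((hdi μ).const_mul _).integrableOn
      rw [← integral_const_mul, ← integral_add i1 i2]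
      refine integral_mono_of_nonneg (Eventually.of_forall fun s => sq_nonneg _) (i1.add i2) ?_
      filter_upwards [ae_restrict_mem measurableSet_Ico] with s hs
      exact hsqd s (Ico_subset_Icc_self hs)
    have hνr : ∫ x, (k x * g x) ^ 2 ∂ν = ∫ x in Ico (0:ℝ) 1, (k x * g x) ^ 2 ∂ν := by
      have : ν.restrict (Ico (0:ℝ) 1) = ν := by
        rw [Measure.restrict_eq_self_of_ae_mem]
        rw [ae_iff]
        exact measure_mono_null (fun x hx h => hx (Ioo_subset_Ico_self h)) hνI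
      rw [this]
    have hvr : ∀ f : ℝ → ℝ, ∫ x in Ioo (0:ℝ) 1, f x = ∫ x in Ico (0:ℝ) 1, f x := by
      intro f
      rw [Measure.restrict_congr_set (Ioo_ae_eq_Ico (a := (0:ℝ)) (b := 1) (μ := volume))]
    rw [hνr, hvr, hvr]
    have q1 := hgen ν
    have q2 := hgen (volume.restrict (Icc (-4:ℝ) 4))
    have e9 : (volume.restrict (Icc (-4:ℝ) 4)).restrict (Ico (0:ℝ) 1) = volume.restrict (Ico (0:ℝ) 1) := by
      rw [Measure.restrict_restrict measurableSet_Ico, inter_eq_left.2]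
      intro x hx; constructor <;> linarith [hx.1, hx.2]
    rw [e9] at q2
    have q3 : ∫ x in Ico (0:ℝ) 1, |g x - r x| ≤ ∫ x in Icc (-4:ℝ) 4, |g x - r x| :=
      setIntegral_mono_set (hdi (volume.restrict (Icc (-4:ℝ) 4))) (Eventually.of_forall fun s => abs_nonneg _)
        (Eventually.of_forall (fun x (hx : x ∈ Ico (0:ℝ) 1) => (⟨by linarith [hx.1], by linarith [hx.2]⟩ : x ∈ Icc (-4:ℝ) 4)))
    have q4 : ∫ x in Ico (0:ℝ) 1, |g x - r x| ∂ν ≤ ∫ x, |g x - r x| ∂ν :=
      setIntegral_le_integral (hdi ν) (Eventually.of_forall fun s => abs_nonneg _)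
    have q5 : 4 * K0 ^ 2 * ((∫ x in Ico (0:ℝ) 1, |g x - r x|) + ∫ x in Ico (0:ℝ) 1, |g x - r x| ∂ν) ≤ 4 * K0 ^ 2 * ε :=
      mul_le_mul_of_nonneg_left (by linarith) (by positivity)
    linarith

end Pool.Agent.R223.Net
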