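import Mathlib
import Pool.Agent.R223.Net.En
import Pool.Agent.R223.Net.L1Dc
import Pool.Agent.R223.Sem.Transfer

set_option autoImplicit false
open MeasureTheory Set Filter Topology Metric

namespace Pool.Agent.R223.Net
open Pool.Agent.R223.NetDefs

noncomputable def pr (i : Fin 2) : Pl →L[ℝ] ℝ := EuclideanSpace.proj i

theorem pr_apply (i : Fin 2) (z : Pl) : pr i z = z i := rfl

theorem pr_norm (i : Fin 2) : ‖pr i‖ ≤ 1 := by
  refine ContinuousLinearMap.opNorm_le_bound _ zero_le_one fun z => ?_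
  rw [one_mul, pr_apply]
  exact PiLp.norm_apply_le z i

theorem nsq (z : Pl) : ‖z‖ ^ 2 = z 0 ^ 2 + z 1 ^ 2 := by
  rw [EuclideanSpace.real_norm_sq_eq, Fin.sum_univ_two]

/-- the glued function -/
noncomputable def glue (χ Ψ : ℝ → ℝ) (u : Pl → ℝ) (z : Pl) : ℝ :=
  (1 - χ (z 1)) * u z + χ (z 1) * Ψ (z 0)

theorem glue_smooth (χ Ψ : ℝ → ℝ) (u : Pl → ℝ) (hχ : ContDiff ℝ (⊤ : ℕ∞) χ)
    (hΨ : ContDiff ℝ (⊤ : ℕ∞) Ψ) (hu : ContDiff ℝ (⊤ : ℕ∞) u) : ContDiff ℝ (⊤ : ℕ∞) (glue χ Ψ u) := by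
  have h1 : ContDiff ℝ (⊤ : ℕ∞) (fun z : Pl => χ (z 1)) := hχ.comp (pr 1).contDiff
  have h0 : ContDiff ℝ (⊤ : ℕ∞) (fun z : Pl => Ψ (z 0)) := hΨ.comp (pr 0).contDiff
  exact ((contDiff_const.sub h1).mul hu).add (h1.mul h0)

theorem glue_fderiv (χ Ψ : ℝ → ℝ) (u : Pl → ℝ) (hχ : Differentiable ℝ χ)
    (hΨ : Differentiable ℝ Ψ) (hu : Differentiable ℝ u) (z : Pl) :
    fderiv ℝ (glue χ Ψ u) z = (1 - χ (z 1)) • fderiv ℝ u z + (χ (z 1) * deriv Ψ (z 0)) • pr 0 +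
      (deriv χ (z 1) * (Ψ (z 0) - u z)) • pr 1 := by
  have h1 : HasFDerivAt (fun z : Pl => χ (z 1)) (deriv χ (z 1) • pr 1) z :=
    ((hχ (z 1)).hasDerivAt).comp_hasFDerivAt z (pr 1).hasFDerivAt
  have h0 : HasFDerivAt (fun z : Pl => Ψ (z 0)) (deriv Ψ (z 0) • pr 0) z :=
    ((hΨ (z 0)).hasDerivAt).comp_hasFDerivAt z (pr 0).hasFDerivAt
  have h2 : HasFDerivAt u (fderiv ℝ u z) z := (hu z).hasFDerivAt
  have h3 := ((h1.const_sub 1).mul h2).add (h1.mul h0)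
  have h4 : fderiv ℝ (glue χ Ψ u) z = _ := h3.fderiv
  rw [h4]
  ext w
  simp
  ring

/-- primitives of smooth functions -/
theorem prim_smooth (K : ℝ → ℝ) (hK : ContDiff ℝ (⊤ : ℕ∞) K) :
    ContDiff ℝ (⊤ : ℕ∞) (fun x => ∫ s in (0:ℝ)..x, K s) ∧ ∀ x, deriv (fun x => ∫ s in (0:ℝ)..x, K s) x = K x := by
  have hd : ∀ x, HasDerivAt (fun x => ∫ s in (0:ℝ)..x, K s) (K x) x := fun x =>
    intervalIntegral.integral_hasDerivAt_right (hK.continuous.intervalIntegrable _ _)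
      (hK.continuous.stronglyMeasurableAtFilter _ _) hK.continuous.continuousAt
  have e : deriv (fun x => ∫ s in (0:ℝ)..x, K s) = K := funext fun x => (hd x).deriv
  refine ⟨?_, fun x => (hd x).deriv⟩
  rw [contDiff_infty_iff_deriv]
  exact ⟨fun x => (hd x).differentiableAt, by rw [e]; exact hK⟩

theorem support_radius (u : Pl → ℝ) (hu : IsTest Disc u) : ∃ ρ : ℝ, 0 ≤ ρ ∧ ρ ^ 2 < 9 ∧ 5 < ρ ^ 2 ∧
    ∀ z, z ∈ tsupport u → ‖z‖ ≤ ρ := by
  rcases (tsupport u).eq_empty_or_nonempty with h0 | hne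
  · refine ⟨5 / 2, by norm_num, by norm_num, by norm_num, fun z hz => ?_⟩
    rw [h0] at hz; exact absurd hz (notMem_empty z)
  · obtain ⟨z0, hz0, hmax⟩ := IsCompact.exists_isMaxOn (show IsCompact (tsupport u) from hu.2.1) hne
      continuous_norm.continuousOn
    have h1 : ‖z0‖ < 3 := by
      have := hu.2.2 hz0
      rwa [Disc, mem_ball_zero_iff] at this
    refine ⟨max ‖z0‖ (5 / 2), le_max_of_le_right (by norm_num), ?_, ?_, fun z hz => (hmax hz).trans (le_max_left _ _)⟩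
    · have h2 : max ‖z0‖ (5 / 2) < 3 := max_lt h1 (by norm_num)
      have h3 : 0 ≤ max ‖z0‖ (5 / 2) := le_max_of_le_right (by norm_num)
      nlinarith
    · have h3 := le_max_right ‖z0‖ (5 / 2)
      nlinarith

/-- the far region -/
def Far (δ : ℝ) : Set Pl := {z | z 0 ≤ 0 ∨ 1 ≤ z 0 ∨ δ ≤ |z 1|}

theorem Far_closed (δ : ℝ) : IsClosed (Far δ) := by
  have h0 : Continuous fun z : Pl => z 0 := (pr 0).continuous
  have h1 : Continuous fun z : Pl => z 1 := (pr 1).continuous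
  exact (isClosed_le h0 continuous_const).union ((isClosed_le continuous_const h0).union
    (isClosed_le continuous_const h1.abs))

/-- area of a thin strip -/
theorem strip_area (δ : ℝ) (hδ : 0 < δ) :
    (volume (Disc ∩ {z : Pl | |z 1| ≤ 2 * δ})).toReal ≤ 24 * δ ∧
      volume (Disc ∩ {z : Pl | |z 1| ≤ 2 * δ}) ≠ ⊤ := by
  have hsub : Disc ∩ {z : Pl | |z 1| ≤ 2 * δ} ⊆
      Pool.Agent.R223.Sem.J '' (Icc (-3:ℝ) 3 ×ˢ Icc (-(2 * δ)) (2 * δ)) := by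
    rintro z ⟨hz1, hz2⟩
    refine ⟨(z 0, z 1), ⟨?_, abs_le.1 hz2⟩, ?_⟩
    · rw [Disc, mem_ball_zero_iff] at hz1
      have h2 : |z 0| ≤ ‖z‖ := PiLp.norm_apply_le z 0
      have := abs_le.1 (h2.trans hz1.le)
      exact this
    · ext i
      fin_cases i
      · exact Pool.Agent.R223.Sem.J_zero _
      · exact Pool.Agent.R223.Sem.J_one _
  have hvol : volume (Pool.Agent.R223.Sem.J '' (Icc (-3:ℝ) 3 ×ˢ Icc (-(2 * δ)) (2 * δ))) =
      ENNReal.ofReal (24 * δ) := by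
    have h1 := Pool.Agent.R223.Sem.J_mp.measure_preimage_emb
      Pool.Agent.R223.Sem.J.toHomeomorph.measurableEmbedding
      (Pool.Agent.R223.Sem.J '' (Icc (-3:ℝ) 3 ×ˢ Icc (-(2 * δ)) (2 * δ)))
    rw [preimage_image_eq _ Pool.Agent.R223.Sem.J.injective] at h1
    rw [← h1, Measure.volume_eq_prod, Measure.prod_prod, Real.volume_Icc, Real.volume_Icc,
      ← ENNReal.ofReal_mul (by norm_num)]
    congr 1; ring
  have h2 : volume (Disc ∩ {z : Pl | |z 1| ≤ 2 * δ}) ≤ ENNReal.ofReal (24 * δ) := by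
    rw [← hvol]; exact measure_mono hsub
  exact ⟨ENNReal.toReal_le_of_le_ofReal (by positivity) h2, ne_top_of_le_ne_top ENNReal.ofReal_ne_top h2⟩

end Pool.Agent.R223.Net
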