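import Mathlib
import Pool.Agent.R223.Net.Key

set_option autoImplicit false
open MeasureTheory Set Filter Topology Metric

namespace Pool.Agent.R223.Net
open Pool.Agent.R223.NetDefs
open Pool.Agent.R223.Sem (St_deriv_zero St_deriv_bound)

/-- horizontal cutoff -/
noncomputable def bfun (x : ℝ) : ℝ := Real.smoothTransition (5 - x ^ 2)

theorem bfun_smooth : ContDiff ℝ (⊤ : ℕ∞) bfun :=
  Real.smoothTransition.contDiff.comp (contDiff_const.sub (contDiff_id.pow 2))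

theorem bfun_mem (x : ℝ) : 0 ≤ bfun x ∧ bfun x ≤ 1 :=
  ⟨Real.smoothTransition.nonneg _, Real.smoothTransition.le_one _⟩

theorem bfun_one (x : ℝ) (hx : x ^ 2 ≤ 4) : bfun x = 1 :=
  Real.smoothTransition.one_of_one_le (by linarith)

theorem bfun_zero (x : ℝ) (hx : 5 ≤ x ^ 2) : bfun x = 0 :=
  Real.smoothTransition.zero_of_nonpos (by linarith)

theorem bfun_deriv (x : ℝ) : deriv bfun x = deriv Real.smoothTransition (5 - x ^ 2) * (-(2 * x)) := by
  have h1 : HasDerivAt (fun x : ℝ => 5 - x ^ 2) (-(2 * x)) x := by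
    have := ((hasDerivAt_id x).pow 2).const_sub 5
    simpa using this
  have h2 : HasDerivAt Real.smoothTransition (deriv Real.smoothTransition (5 - x ^ 2)) (5 - x ^ 2) :=
    ((Real.smoothTransition.contDiff (n := 1)).differentiable (by norm_num) _).hasDerivAt
  exact (h2.comp x h1).deriv

theorem bfun_deriv_zero (x : ℝ) (hx : x ^ 2 ≤ 4 ∨ 5 ≤ x ^ 2) : deriv bfun x = 0 := by
  rw [bfun_deriv, St_deriv_zero _ (by rcases hx with h | h; exacts [Or.inr (by linarith), Or.inl (by linarith)]),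
    zero_mul]

theorem bfun_deriv_bound (M : ℝ) (hM0 : 0 ≤ M) (hM : ∀ t : ℝ, |deriv Real.smoothTransition t| ≤ M) (x : ℝ) :
    |deriv bfun x| ≤ 6 * M := by
  by_cases hx : 5 ≤ x ^ 2
  · rw [bfun_deriv_zero x (Or.inr hx), abs_zero]; positivity
  · push Not at hx
    have h3 : |x| ≤ 3 := abs_le_of_sq_le_sq (by linarith) (by norm_num)
    rw [bfun_deriv, abs_mul, abs_neg, abs_mul, abs_two]
    have h1 := hM (5 - x ^ 2)
    nlinarith [abs_nonneg x, abs_nonneg (deriv Real.smoothTransition (5 - x ^ 2))]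

/-- vertical cutoff -/
noncomputable def chi (δ t : ℝ) : ℝ := Real.smoothTransition (2 - t ^ 2 / δ ^ 2)

theorem chi_smooth (δ : ℝ) : ContDiff ℝ (⊤ : ℕ∞) (chi δ) :=
  Real.smoothTransition.contDiff.comp (contDiff_const.sub ((contDiff_id.pow 2).div_const _))

theorem chi_mem (δ x : ℝ) : 0 ≤ chi δ x ∧ chi δ x ≤ 1 :=
  ⟨Real.smoothTransition.nonneg _, Real.smoothTransition.le_one _⟩

theorem chi_one (δ x : ℝ) (hδ : 0 < δ) (hx : x ^ 2 ≤ δ ^ 2) : chi δ x = 1 := by
  refine Real.smoothTransition.one_of_one_le ?_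
  have : x ^ 2 / δ ^ 2 ≤ 1 := by rw [div_le_one (by positivity)]; exact hx
  linarith

theorem chi_zero (δ x : ℝ) (hδ : 0 < δ) (hx : 2 * δ ^ 2 ≤ x ^ 2) : chi δ x = 0 := by
  refine Real.smoothTransition.zero_of_nonpos ?_
  have : 2 ≤ x ^ 2 / δ ^ 2 := by rw [le_div_iff₀ (by positivity)]; exact hx
  linarith

theorem chi_deriv (δ x : ℝ) : deriv (chi δ) x =
    deriv Real.smoothTransition (2 - x ^ 2 / δ ^ 2) * (-(2 * x / δ ^ 2)) := by
  have h1 : HasDerivAt (fun x : ℝ => 2 - x ^ 2 / δ ^ 2) (-(2 * x / δ ^ 2)) x := by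
    have := (((hasDerivAt_id x).pow 2).div_const (δ ^ 2)).const_sub 2
    simpa using this
  have h2 : HasDerivAt Real.smoothTransition (deriv Real.smoothTransition (2 - x ^ 2 / δ ^ 2)) (2 - x ^ 2 / δ ^ 2) :=
    ((Real.smoothTransition.contDiff (n := 1)).differentiable (by norm_num) _).hasDerivAt
  exact (h2.comp x h1).deriv

theorem chi_deriv_zero (δ x : ℝ) (hδ : 0 < δ) (hx : x ^ 2 ≤ δ ^ 2 ∨ 2 * δ ^ 2 ≤ x ^ 2) : deriv (chi δ) x = 0 := by
  rw [chi_deriv, St_deriv_zero _ ?_, zero_mul]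
  rcases hx with h | h
  · right
    have : x ^ 2 / δ ^ 2 ≤ 1 := by rw [div_le_one (by positivity)]; exact h
    linarith
  · left
    have : 2 ≤ x ^ 2 / δ ^ 2 := by rw [le_div_iff₀ (by positivity)]; exact h
    linarith

theorem chi_deriv_bound (M : ℝ) (hM0 : 0 ≤ M) (hM : ∀ t : ℝ, |deriv Real.smoothTransition t| ≤ M) (δ x : ℝ)
    (hδ : 0 < δ) : |deriv (chi δ) x| * δ ≤ 4 * M := by
  by_cases hx : 2 * δ ^ 2 ≤ x ^ 2
  · rw [chi_deriv_zero δ x hδ (Or.inr hx), abs_zero]; linarith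
  · push Not at hx
    have h3 : |x| ≤ 2 * δ := abs_le_of_sq_le_sq (by nlinarith) (by positivity)
    rw [chi_deriv, abs_mul, abs_neg, abs_div, abs_mul, abs_two, abs_of_pos (by positivity : 0 < δ ^ 2)]
    have h1 := hM (2 - x ^ 2 / δ ^ 2)
    have h4 : 2 * |x| / δ ^ 2 * δ ≤ 4 := by
      rw [div_mul_eq_mul_div, div_le_iff₀ (by positivity)]
      nlinarith
    calc |deriv Real.smoothTransition (2 - x ^ 2 / δ ^ 2)| * (2 * |x| / δ ^ 2) * δ =
          |deriv Real.smoothTransition (2 - x ^ 2 / δ ^ 2)| * (2 * |x| / δ ^ 2 * δ) := by ring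
      _ ≤ M * 4 := mul_le_mul h1 h4 (by positivity) hM0
      _ = 4 * M := by ring

end Pool.Agent.R223.Net
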