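import Mathlib
import Pool.Agent.R223.Net.Cutoff

set_option autoImplicit false
open MeasureTheory Set Filter Topology Metric

namespace Pool.Agent.R223.Net
open Pool.Agent.R223.NetDefs
open Pool.Agent.R223.Sem (St_deriv_zero St_deriv_bound)

theorem seg_proj (z : Pl) : z - seg 0 e0 (z 0) = (z 1) • e1 := by
  ext i
  fin_cases i
  · simp [seg, e0, e1]
  · simp [seg, e0, e1]

theorem line_smooth {Ω : Set Pl} {u : Pl → ℝ} (hu : IsTest Ω u) :
    ContDiff ℝ (⊤ : ℕ∞) (fun s => fderiv ℝ u (seg 0 e0 s) e0) := by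
  have h1 : ContDiff ℝ (⊤ : ℕ∞) (fderiv ℝ u) := hu.1.fderiv_right (by simp)
  have h2 : ContDiff ℝ (⊤ : ℕ∞) (seg 0 e0) := by
    unfold seg
    exact contDiff_const.add (contDiff_id.smul contDiff_const)
  exact (h1.comp h2).clm_apply contDiff_const

theorem build (u : Pl → ℝ) (hu : IsTest Disc u) : ∃ C2 ρ' : ℝ, 0 ≤ C2 ∧ 0 < ρ' ∧ ρ' ≤ 1 ∧
    ∀ δ : ℝ, 0 < δ → δ ≤ ρ' → ∀ g : ℝ → ℝ, ContDiff ℝ (⊤ : ℕ∞) g → (∀ x, 0 ≤ g x ∧ g x ≤ 2) →
    ∀ η : ℝ, 0 ≤ η → η ≤ δ →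
    (∀ x ∈ Icc (-3 : ℝ) 3, |∫ s in (0:ℝ)..x, (fderiv ℝ u (seg 0 e0 s) e0) * (g s - 1)| ≤ η) →
    ∃ v : Pl → ℝ, IsTest Disc v ∧ (∀ z, ‖fderiv ℝ v z‖ ≤ C2) ∧
      (∀ z : Pl, 2 * δ < |z 1| → fderiv ℝ v z = fderiv ℝ u z) ∧
      (∀ z : Pl, 0 ≤ z 0 → z 0 ≤ 1 → |z 1| < δ →
        ‖fderiv ℝ v z‖ ^ 2 ≤ ((fderiv ℝ u (seg 0 e0 (z 0)) e0) * g (z 0)) ^ 2) ∧
      (∀ x ∈ Icc (0:ℝ) 1, |v (seg 0 e0 x) - u (seg 0 e0 x)| ≤ η) ∧ v 0 = u 0 := by
  obtain ⟨C, hC0, hCu, hCd⟩ := tbdd hu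
  obtain ⟨M, hM0, hM⟩ := St_deriv_bound
  obtain ⟨ρ, hρ0, hρ9, hρ5, hρs⟩ := support_radius u hu
  refine ⟨3 * C + 6 * M + 4 * M * (2 * C + 1), min 1 (Real.sqrt ((9 - ρ ^ 2) / 4)), by positivity,
    lt_min one_pos (Real.sqrt_pos.2 (by linarith)), min_le_left _ _, ?_⟩
  intro δ hδ hδρ g hg hg2 η hη hηδ hprim
  have hδ1 : δ ≤ 1 := hδρ.trans (min_le_left _ _)
  have hδ2 : 4 * δ ^ 2 ≤ 9 - ρ ^ 2 := by
    have h1 : δ ≤ Real.sqrt ((9 - ρ ^ 2) / 4) := hδρ.trans (min_le_right _ _)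
    have h2 : δ ^ 2 ≤ (Real.sqrt ((9 - ρ ^ 2) / 4)) ^ 2 := pow_le_pow_left₀ hδ.le h1 2
    rw [Real.sq_sqrt (by linarith)] at h2
    linarith
  set k : ℝ → ℝ := fun s => fderiv ℝ u (seg 0 e0 s) e0 with hk
  have hksm : ContDiff ℝ (⊤ : ℕ∞) k := line_smooth hu
  have hkC : ∀ s, |k s| ≤ C := by
    intro s
    have h1 := (fderiv ℝ u (seg 0 e0 s)).le_opNorm e0
    rw [e0_norm, mul_one] at h1
    exact h1.trans (hCd _)
  set K : ℝ → ℝ := fun s => k s * (g s - 1) with hK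
  have hKsm : ContDiff ℝ (⊤ : ℕ∞) K := hksm.mul (hg.sub contDiff_const)
  have hg1 : ∀ s, |g s - 1| ≤ 1 := fun s => by
    rw [abs_le]; constructor <;> linarith [(hg2 s).1, (hg2 s).2]
  have hKC : ∀ s, |K s| ≤ C := by
    intro s
    rw [hK, abs_mul]
    nlinarith [hkC s, hg1 s, abs_nonneg (k s), abs_nonneg (g s - 1)]
  set ψ : ℝ → ℝ := fun x => ∫ s in (0:ℝ)..x, K s with hψ
  obtain ⟨hψsm, hψd⟩ := prim_smooth K hKsm
  set φ : ℝ → ℝ := fun x => u (seg 0 e0 x) with hφ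
  have hφsm : ContDiff ℝ (⊤ : ℕ∞) φ := by
    have h2 : ContDiff ℝ (⊤ : ℕ∞) (seg 0 e0) := by
      unfold seg
      exact contDiff_const.add (contDiff_id.smul contDiff_const)
    exact hu.1.comp h2
  have hφd : ∀ x, deriv φ x = k x := fun x => (line_deriv hu x).deriv
  set Ψ : ℝ → ℝ := fun x => φ x + bfun x * ψ x with hΨ
  have hΨsm : ContDiff ℝ (⊤ : ℕ∞) Ψ := hφsm.add (bfun_smooth.mul hψsm)
  have htop : ((⊤ : ℕ∞) : WithTop ℕ∞) ≠ 0 := by simp
  have hΨd : ∀ x, deriv Ψ x = k x + (deriv bfun x * ψ x + bfun x * K x) := by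
    intro x
    have h1 : HasDerivAt φ (k x) x := line_deriv hu x
    have h2 : HasDerivAt bfun (deriv bfun x) x := (bfun_smooth.differentiable (by simp) x).hasDerivAt
    have h3 : HasDerivAt ψ (K x) x := by
      have := (hψsm.differentiable (by simp) x).hasDerivAt
      rwa [hψd x] at this
    exact (h1.add (h2.mul h3)).deriv
  have hbψ : ∀ x, |bfun x * ψ x| ≤ η := by
    intro x
    by_cases hx : 5 ≤ x ^ 2
    · rw [bfun_zero x hx, zero_mul, abs_zero]; exact hη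
    · push Not at hx
      have h3 : |x| ≤ 3 := abs_le_of_sq_le_sq (by linarith) (by norm_num)
      rw [abs_mul, abs_of_nonneg (bfun_mem x).1]
      have h4 : |ψ x| ≤ η := hprim x (abs_le.1 h3)
      nlinarith [(bfun_mem x).1, (bfun_mem x).2, abs_nonneg (ψ x)]
  have hΨC : ∀ x, |deriv Ψ x| ≤ 2 * C + 6 * M := by
    intro x
    rw [hΨd x]
    have h1 : |deriv bfun x * ψ x| ≤ 6 * M := by
      by_cases hx : 5 ≤ x ^ 2
      · rw [bfun_deriv_zero x (Or.inr hx), zero_mul, abs_zero]; positivity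
      · push Not at hx
        have h3 : |x| ≤ 3 := abs_le_of_sq_le_sq (by linarith) (by norm_num)
        rw [abs_mul]
        have h4 : |ψ x| ≤ η := hprim x (abs_le.1 h3)
        have h5 := bfun_deriv_bound M hM0 hM x
        calc |deriv bfun x| * |ψ x| ≤ 6 * M * 1 :=
              mul_le_mul h5 (h4.trans (hηδ.trans hδ1)) (abs_nonneg _) (by positivity)
          _ = 6 * M := by ring
    have h2 : |bfun x * K x| ≤ C := by
      rw [abs_mul, abs_of_nonneg (bfun_mem x).1]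
      nlinarith [(bfun_mem x).1, (bfun_mem x).2, abs_nonneg (K x), hKC x]
    have h3 := abs_add_le (k x) (deriv bfun x * ψ x + bfun x * K x)
    have h4 := abs_add_le (deriv bfun x * ψ x) (bfun x * K x)
    linarith [hkC x]
  -- difference on the strip
  have hdiff : ∀ z : Pl, |z 1| ≤ 2 * δ → |Ψ (z 0) - u z| ≤ (2 * C + 1) * δ := by
    intro z hz
    have h1 : |φ (z 0) - u z| ≤ C * |z 1| := by
      have h2 := Convex.norm_image_sub_le_of_norm_fderiv_le (𝕜 := ℝ) (f := u) (s := univ) (C := C)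
        (fun x _ => (tdiff hu) x) (fun x _ => hCd x) convex_univ (mem_univ (seg 0 e0 (z 0))) (mem_univ z)
      rw [seg_proj, norm_smul, e1_norm, mul_one, Real.norm_eq_abs, Real.norm_eq_abs, abs_sub_comm] at h2
      exact h2
    have h3 : Ψ (z 0) - u z = (φ (z 0) - u z) + bfun (z 0) * ψ (z 0) := by
      simp only [hΨ]; ring
    rw [h3]
    refine (abs_add_le _ _).trans ?_
    have h4 := hbψ (z 0)
    nlinarith
  set v : Pl → ℝ := glue (chi δ) Ψ u with hv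
  have hvsm : ContDiff ℝ (⊤ : ℕ∞) v := glue_smooth _ _ _ (chi_smooth δ) hΨsm hu.1
  have hvd : ∀ z, fderiv ℝ v z = (1 - chi δ (z 1)) • fderiv ℝ u z + (chi δ (z 1) * deriv Ψ (z 0)) • pr 0 +
      (deriv (chi δ) (z 1) * (Ψ (z 0) - u z)) • pr 1 := fun z =>
    glue_fderiv _ _ _ ((chi_smooth δ).differentiable (by simp)) (hΨsm.differentiable (by simp)) (tdiff hu) z
  -- support
  set R : ℝ := Real.sqrt (ρ ^ 2 + 2 * δ ^ 2) with hR
  have hR2 : R ^ 2 = ρ ^ 2 + 2 * δ ^ 2 := Real.sq_sqrt (by positivity)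
  have hR0 : 0 ≤ R := Real.sqrt_nonneg _
  have hR3 : R < 3 := by
    have : R ^ 2 < 3 ^ 2 := by rw [hR2]; nlinarith [sq_pos_of_pos hδ]
    exact lt_of_pow_lt_pow_left₀ 2 (by norm_num) this
  have hsupp : Function.support v ⊆ closedBall 0 R := by
    intro z hz
    rw [mem_closedBall_zero_iff]
    by_contra hlt
    push Not at hlt
    apply hz
    have hz2 : R ^ 2 < ‖z‖ ^ 2 := by nlinarith
    have hρz : ρ < ‖z‖ := by
      have : ρ ^ 2 < ‖z‖ ^ 2 := by rw [hR2] at hz2; nlinarith [sq_nonneg δ]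
      exact lt_of_pow_lt_pow_left₀ 2 (norm_nonneg _) this
    have hu0 : u z = 0 := image_eq_zero_of_notMem_tsupport (fun h => absurd (hρs z h) (not_le.2 hρz))
    show (1 - chi δ (z 1)) * u z + chi δ (z 1) * Ψ (z 0) = 0
    rw [hu0, mul_zero, zero_add]
    by_cases h1 : 2 * δ ^ 2 ≤ z 1 ^ 2
    · rw [chi_zero δ _ hδ h1, zero_mul]
    · push Not at h1
      have h2 : ρ ^ 2 < z 0 ^ 2 := by
        rw [nsq, hR2] at hz2; linarith
      have h3 : φ (z 0) = 0 := by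
        show u (seg 0 e0 (z 0)) = 0
        refine image_eq_zero_of_notMem_tsupport (fun h => ?_)
        have h4 := hρs _ h
        have h5 : ‖seg 0 e0 (z 0)‖ ^ 2 = z 0 ^ 2 := by
          rw [nsq, seg_e0_0, seg_e0_1]; simp
        have h6 : ‖seg 0 e0 (z 0)‖ ^ 2 ≤ ρ ^ 2 := pow_le_pow_left₀ (norm_nonneg _) h4 2
        linarith
      have h7 : bfun (z 0) = 0 := bfun_zero _ (by linarith)
      simp only [hΨ, h3, h7, zero_mul, add_zero, mul_zero]
  have hts : tsupport v ⊆ closedBall 0 R := closure_minimal hsupp isClosed_closedBall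
  have hvtest : IsTest Disc v :=
    ⟨hvsm, HasCompactSupport.of_support_subset_isCompact (isCompact_closedBall 0 R) hsupp,
      hts.trans (closedBall_subset_ball hR3)⟩
  refine ⟨v, hvtest, ?_, ?_, ?_, ?_, ?_⟩
  · intro z
    rw [hvd z]
    have hc := chi_mem δ (z 1)
    have h1 : ‖(1 - chi δ (z 1)) • fderiv ℝ u z‖ ≤ C := by
      rw [norm_smul, Real.norm_of_nonneg (by linarith)]
      nlinarith [norm_nonneg (fderiv ℝ u z), hCd z]
    have h2 : ‖(chi δ (z 1) * deriv Ψ (z 0)) • pr 0‖ ≤ 2 * C + 6 * M := by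
      rw [norm_smul, Real.norm_eq_abs, abs_mul, abs_of_nonneg hc.1]
      have h3 := hΨC (z 0)
      have h4 : chi δ (z 1) * |deriv Ψ (z 0)| ≤ 2 * C + 6 * M := by
        nlinarith [abs_nonneg (deriv Ψ (z 0))]
      have h5 : 0 ≤ chi δ (z 1) * |deriv Ψ (z 0)| := mul_nonneg hc.1 (abs_nonneg _)
      nlinarith [pr_norm 0, norm_nonneg (pr 0)]
    have h3 : ‖(deriv (chi δ) (z 1) * (Ψ (z 0) - u z)) • pr 1‖ ≤ 4 * M * (2 * C + 1) := by
      rw [norm_smul, Real.norm_eq_abs, abs_mul]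
      have h4 : |deriv (chi δ) (z 1)| * |Ψ (z 0) - u z| ≤ 4 * M * (2 * C + 1) := by
        by_cases h : 2 * δ ^ 2 ≤ z 1 ^ 2
        · rw [chi_deriv_zero δ _ hδ (Or.inr h), abs_zero, zero_mul]; positivity
        · push Not at h
          have h5 : |z 1| ≤ 2 * δ := abs_le_of_sq_le_sq (by nlinarith) (by positivity)
          have h6 := hdiff z h5
          have h7 := chi_deriv_bound M hM0 hM δ (z 1) hδ
          calc |deriv (chi δ) (z 1)| * |Ψ (z 0) - u z| ≤ |deriv (chi δ) (z 1)| * ((2 * C + 1) * δ) :=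
                mul_le_mul_of_nonneg_left h6 (abs_nonneg _)
            _ = (|deriv (chi δ) (z 1)| * δ) * (2 * C + 1) := by ring
            _ ≤ 4 * M * (2 * C + 1) := mul_le_mul_of_nonneg_right h7 (by positivity)
      have h5 : 0 ≤ |deriv (chi δ) (z 1)| * |Ψ (z 0) - u z| := by positivity
      nlinarith [pr_norm 1, norm_nonneg (pr 1)]
    have h4 := norm_add_le ((1 - chi δ (z 1)) • fderiv ℝ u z + (chi δ (z 1) * deriv Ψ (z 0)) • pr 0)
      ((deriv (chi δ) (z 1) * (Ψ (z 0) - u z)) • pr 1)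
    have h5 := norm_add_le ((1 - chi δ (z 1)) • fderiv ℝ u z) ((chi δ (z 1) * deriv Ψ (z 0)) • pr 0)
    linarith
  · intro z hz
    have h1 : 2 * δ ^ 2 ≤ z 1 ^ 2 := by
      rw [← sq_abs (z 1)]; nlinarith
    rw [hvd z, chi_zero δ _ hδ h1, chi_deriv_zero δ _ hδ (Or.inr h1)]
    simp
  · intro z hz0 hz1 hz
    have h1 : z 1 ^ 2 ≤ δ ^ 2 := by
      rw [← sq_abs (z 1)]; nlinarith [abs_nonneg (z 1)]
    have h2 : z 0 ^ 2 ≤ 4 := by nlinarith
    rw [hvd z, chi_one δ _ hδ h1, chi_deriv_zero δ _ hδ (Or.inl h1), hΨd, bfun_one _ h2,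
      bfun_deriv_zero _ (Or.inl h2)]
    have h3 : (1 - 1 : ℝ) • fderiv ℝ u z + (1 * (k (z 0) + (0 * ψ (z 0) + 1 * K (z 0)))) • pr 0 +
        (0 * (Ψ (z 0) - u z)) • pr 1 = (k (z 0) * g (z 0)) • pr 0 := by
      simp only [hK]
      rw [sub_self, zero_smul, zero_mul, zero_mul, zero_smul, zero_add, add_zero]
      congr 1
      ring
    rw [h3, norm_smul, mul_pow, Real.norm_eq_abs, sq_abs]
    have h4 : ‖pr 0‖ ^ 2 ≤ 1 := by nlinarith [pr_norm 0, norm_nonneg (pr 0)]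
    nlinarith [sq_nonneg (k (z 0) * g (z 0))]
  · intro x hx
    have h1 : (seg 0 e0 x) 1 = 0 := by rw [seg_e0_1]; rfl
    have h2 : (seg 0 e0 x) 0 = x := by rw [seg_e0_0]; simp
    have h3 : v (seg 0 e0 x) - u (seg 0 e0 x) = bfun x * ψ x := by
      simp only [hv, glue, h1, h2]
      rw [chi_one δ 0 hδ (by simpa using sq_nonneg δ)]
      simp only [hΨ, hφ]
      ring
    rw [h3]
    exact hbψ x
  · have h0 : seg 0 e0 0 = (0:Pl) := by simp [seg]
    have h3 : v 0 = (1 - chi δ 0) * u 0 + chi δ 0 * (u (seg 0 e0 0) + bfun 0 * ψ 0) := rfl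
    rw [h3, chi_one δ 0 hδ (by simpa using sq_nonneg δ), h0]
    simp [hψ]

end Pool.Agent.R223.Net
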