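import Mathlib
import Pool.Agent.R223.Net.Build

set_option autoImplicit false
open MeasureTheory Set Filter Topology Metric

namespace Pool.Agent.R223.Net
open Pool.Agent.R223.NetDefs

theorem z0_cont : Continuous fun z : Pl => z 0 := (pr 0).continuous
theorem z1_cont : Continuous fun z : Pl => z 1 := (pr 1).continuous

theorem z0_lip : LipschitzWith 1 fun z : Pl => z 0 := by
  refine LipschitzWith.of_dist_le_mul fun x y => ?_
  rw [NNReal.coe_one, one_mul, dist_eq_norm, dist_eq_norm]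
  have := PiLp.norm_apply_le (x - y) 0
  simpa using this

/-- projections do not increase length -/
theorem proj_len (B : Set Pl) : volume ((fun z : Pl => z 0) '' B) ≤
    (Measure.hausdorffMeasure 1 : Measure Pl) B := by
  have h := z0_lip.lipschitzOnWith (s := B) |>.hausdorffMeasure_image_le (d := 1) zero_le_one
  rw [hausdorffMeasure_real] at h
  simpa using h

theorem key (u : Pl → ℝ) (hu : IsTest Disc u) (η : ℝ) (hη : 0 < η) :
    ∃ N : ℕ, 1 ≤ N ∧ ∃ δ ε0 : ℝ, 0 < δ ∧ 0 < ε0 ∧ ∀ Sg : Set Pl, MeasurableSet Sg → S0 ⊆ Sg →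
      (Measure.hausdorffMeasure 1 : Measure Pl) Sg ≤ ENNReal.ofReal (3 / 2) →
      ((Measure.hausdorffMeasure 1 : Measure Pl) (Sg ∩ Far δ)).toReal ≤ ε0 →
      (∀ j < N, ((Measure.hausdorffMeasure 1 : Measure Pl) ((Sg \ S0) ∩
        {z | z 0 ∈ Icc ((j : ℝ) / N) (((j : ℝ) + 1) / N)})).toReal ≤ (51 / 100) / N) →
      ∃ v : Pl → ℝ, IsTest Disc v ∧ J Disc load 1 (Net Sg) v ≤
        1 / 2 * (∫ x, ‖gradient u x‖ ^ 2) + 27 / 40 * T u - pair load u + η := by
  obtain ⟨C2, ρ', hC2, hρ', hρ1, hb⟩ := build u hu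
  set δ : ℝ := min ρ' (η / (48 * (C2 ^ 2 + 1))) with hδdef
  have hδ : 0 < δ := lt_min hρ' (by positivity)
  have hδρ : δ ≤ ρ' := min_le_left _ _
  have hδη : 12 * C2 ^ 2 * δ ≤ η / 4 := by
    have h1 : δ ≤ η / (48 * (C2 ^ 2 + 1)) := min_le_right _ _
    rw [le_div_iff₀ (by positivity)] at h1
    nlinarith
  set ε0 : ℝ := η / (2 * (C2 ^ 2 + 1)) with hε0def
  have hε0 : 0 < ε0 := by positivity
  have hε0η : 1 / 2 * C2 ^ 2 * ε0 ≤ η / 4 := by
    have h1 : ε0 * (2 * (C2 ^ 2 + 1)) = η := by rw [hε0def]; field_simp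
    nlinarith
  set η' : ℝ := min δ (η / 4) with hη'def
  have hη' : 0 < η' := lt_min hδ (by positivity)
  have hη'δ : η' ≤ δ := min_le_left _ _
  have hη'η : η' ≤ η / 4 := min_le_right _ _
  set k : ℝ → ℝ := fun s => fderiv ℝ u (seg 0 e0 s) e0 with hk
  have hkc : Continuous k := line_cont hu
  obtain ⟨N, hN, hone⟩ := oneD k hkc η' hη'
  refine ⟨N, hN, δ, ε0, hδ, hε0, ?_⟩
  intro Sg hSg hS0 hlen hfar hslab
  have hfin : ∀ X : Set Pl, X ⊆ Sg → (Measure.hausdorffMeasure 1 : Measure Pl) X ≠ ⊤ := fun X hX =>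
    ne_top_of_le_ne_top ENNReal.ofReal_ne_top ((measure_mono hX).trans hlen)
  set B : Set Pl := (Sg \ S0) \ Far δ with hB
  have hS0m : MeasurableSet S0 := S0_compact.isClosed.measurableSet
  have hFm : MeasurableSet (Far δ) := (Far_closed δ).measurableSet
  have hBm : MeasurableSet B := (hSg.diff hS0m).diff hFm
  have hBSg : B ⊆ Sg := sdiff_subset.trans sdiff_subset
  have hBfin : IsFiniteMeasure ((Measure.hausdorffMeasure 1 : Measure Pl).restrict B) :=
    ⟨by rw [Measure.restrict_apply_univ]; exact (hfin B hBSg).lt_top⟩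
  set ν : Measure ℝ := ((Measure.hausdorffMeasure 1 : Measure Pl).restrict B).map (fun z : Pl => z 0) with hν
  have hz0m : Measurable fun z : Pl => z 0 := z0_cont.measurable
  have hνfin : IsFiniteMeasure ν := by rw [hν]; infer_instance
  have hνapp : ∀ I : Set ℝ, MeasurableSet I → ν I = (Measure.hausdorffMeasure 1 : Measure Pl)
      (((fun z : Pl => z 0) ⁻¹' I) ∩ B) := by
    intro I hI
    rw [hν, Measure.map_apply hz0m hI, Measure.restrict_apply (hz0m hI)]
  set A : Set ℝ := toMeasurable volume ((fun z : Pl => z 0) '' B) with hA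
  have hAm : MeasurableSet A := measurableSet_toMeasurable _ _
  have hA1 : ν Aᶜ = 0 := by
    rw [hνapp _ hAm.compl]
    have : ((fun z : Pl => z 0) ⁻¹' Aᶜ) ∩ B = ∅ := by
      ext z
      simp only [mem_inter_iff, mem_preimage, mem_compl_iff, mem_empty_iff_false, iff_false, not_and]
      intro h1 h2
      exact h1 (subset_toMeasurable _ _ (mem_image_of_mem _ h2))
    rw [this, measure_empty]
  have hA2 : ν (Ioo 0 1)ᶜ = 0 := by
    rw [hνapp _ measurableSet_Ioo.compl]
    have : ((fun z : Pl => z 0) ⁻¹' (Ioo 0 1)ᶜ) ∩ B = ∅ := by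
      ext z
      simp only [mem_inter_iff, mem_preimage, mem_compl_iff, mem_empty_iff_false, iff_false, not_and]
      intro h1 h2
      apply h1
      have h3 : z ∉ Far δ := h2.2
      unfold Far at h3
      rw [mem_ofPred_eq] at h3
      push Not at h3
      exact ⟨h3.1, h3.2.1⟩
    rw [this, measure_empty]
  have hsub : ∀ I : Set ℝ, ((fun z : Pl => z 0) ⁻¹' I) ∩ B ⊆ (Sg \ S0) ∩ {z | z 0 ∈ I} := by
    rintro I z ⟨h1, h2⟩
    exact ⟨h2.1, h1⟩
  have hA3 : ∀ j < N, (ν (Icc ((j : ℝ) / N) (((j : ℝ) + 1) / N))).toReal ≤ (51 / 100) / N := by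
    intro j hj
    refine le_trans ?_ (hslab j hj)
    rw [hνapp _ measurableSet_Icc]
    exact ENNReal.toReal_mono (hfin _ (inter_subset_left.trans sdiff_subset)) (measure_mono (hsub _))
  have hA4 : ∀ j < N, (volume (A ∩ Icc ((j : ℝ) / N) (((j : ℝ) + 1) / N))).toReal ≤ (51 / 100) / N := by
    intro j hj
    refine le_trans ?_ (hslab j hj)
    refine ENNReal.toReal_mono (hfin _ (inter_subset_left.trans sdiff_subset)) ?_
    rw [hA, Measure.measure_toMeasurable_inter_of_sFinite measurableSet_Icc]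
    have h1 : ((fun z : Pl => z 0) '' B) ∩ Icc ((j : ℝ) / N) (((j : ℝ) + 1) / N) ⊆
        (fun z : Pl => z 0) '' ((Sg \ S0) ∩ {z | z 0 ∈ Icc ((j : ℝ) / N) (((j : ℝ) + 1) / N)}) := by
      rintro _ ⟨⟨z, hz, rfl⟩, h2⟩
      exact ⟨z, ⟨hz.1, h2⟩, rfl⟩
    exact (measure_mono h1).trans (proj_len _)
  obtain ⟨g, hg, hg2, hgp, hgi⟩ := hone ν A hAm hA1 hA2 hA3 hA4
  obtain ⟨v, hv, hv1, hv2, hv3, hv4, hv5⟩ := hb δ hδ hδρ g hg hg2 η' hη'.le hη'δ hgp
  refine ⟨v, hv, ?_⟩
  have hq2 : Continuous fun x : ℝ => (k x * g x) ^ 2 := (hkc.mul hg.continuous).pow 2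
  -- bulk
  have hbulk : (∫ x, ‖gradient v x‖ ^ 2) ≤ (∫ x, ‖gradient u x‖ ^ 2) + C2 ^ 2 * (24 * δ) := by
    obtain ⟨hs1, hs2⟩ := strip_area δ hδ
    have hsm : MeasurableSet (Disc ∩ {z : Pl | |z 1| ≤ 2 * δ}) :=
      isOpen_ball.measurableSet.inter (isClosed_le z1_cont.abs continuous_const).measurableSet
    have hi1 : Integrable (fun x : Pl => ‖gradient u x‖ ^ 2) :=
      (gsq_cont hu).integrable_of_hasCompactSupport (gsq_cs hu)
    have hi3 : Integrable (fun x : Pl => ‖gradient v x‖ ^ 2) :=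
      (gsq_cont hv).integrable_of_hasCompactSupport (gsq_cs hv)
    have hi2 : Integrable ((Disc ∩ {z : Pl | |z 1| ≤ 2 * δ}).indicator (fun _ => C2 ^ 2)) := by
      rw [integrable_indicator_iff hsm]
      exact integrableOn_const hs2
    have h1 : ∫ x, ‖gradient v x‖ ^ 2 ≤ ∫ x, (‖gradient u x‖ ^ 2 +
        (Disc ∩ {z : Pl | |z 1| ≤ 2 * δ}).indicator (fun _ => C2 ^ 2) x) := by
      refine integral_mono hi3 (hi1.add hi2) fun z => ?_
      by_cases hz : z ∈ Disc ∩ {z : Pl | |z 1| ≤ 2 * δ}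
      · rw [indicator_of_mem hz, grad_norm v]
        have := pow_le_pow_left₀ (norm_nonneg _) (hv1 z) 2
        have := sq_nonneg ‖gradient u z‖
        linarith
      · rw [indicator_of_notMem hz, add_zero]
        by_cases hzD : z ∈ Disc
        · have hz1 : 2 * δ < |z 1| := by
            by_contra h
            exact hz ⟨hzD, not_lt.1 h⟩
          rw [grad_norm, grad_norm, hv2 z hz1]
        · rw [grad_zero hv hzD]
          exact sq_nonneg _
    rw [integral_add hi1 hi2, integral_indicator hsm, setIntegral_const, smul_eq_mul] at h1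
    have h2 : (volume.real (Disc ∩ {z : Pl | |z 1| ≤ 2 * δ})) * C2 ^ 2 ≤ 24 * δ * C2 ^ 2 :=
      mul_le_mul_of_nonneg_right hs1 (sq_nonneg _)
    linarith
  -- network
  have hSgfin : IsFiniteMeasure (Net Sg) := net_finite hlen
  have hint : IntegrableOn (fun x : Pl => ‖gradient v x‖ ^ 2) Sg (Measure.hausdorffMeasure 1) :=
    gsq_int hv (Net Sg)
  have hnet : (∫ x, ‖gradient v x‖ ^ 2 ∂(Net Sg)) ≤ (27 / 20) * T u + η' + C2 ^ 2 * ε0 := by
    have e1 := integral_inter_add_sdiff hS0m hint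
    rw [inter_eq_self_of_subset_right hS0] at e1
    have e2 := integral_inter_add_sdiff hFm (hint.mono_set (sdiff_subset (s := Sg) (t := S0)))
    have i1 : ∫ x in S0, ‖gradient v x‖ ^ 2 ∂(Measure.hausdorffMeasure 1) ≤
        ∫ x in Ioo (0:ℝ) 1, (k x * g x) ^ 2 := by
      have h1 : ∫ x in S0, ‖gradient v x‖ ^ 2 ∂(Measure.hausdorffMeasure 1) =
          ∫ s in Icc (0:ℝ) 1, ‖gradient v (seg 0 e0 s)‖ ^ 2 := int_seg 0 e0 e0_norm (Icc 0 1) _
      rw [h1, Measure.restrict_congr_set (Ioo_ae_eq_Icc (a := (0:ℝ)) (b := 1) (μ := volume))]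
      refine setIntegral_mono_on ?_ ?_ measurableSet_Icc ?_
      · exact ((gsq_cont hv).comp (seg_cont 0 e0)).continuousOn.integrableOn_compact isCompact_Icc
      · exact hq2.continuousOn.integrableOn_compact isCompact_Icc
      · intro s hs
        have h0 : (seg 0 e0 s) 0 = s := by rw [seg_e0_0]; simp
        have h1 : (seg 0 e0 s) 1 = 0 := by rw [seg_e0_1]; rfl
        have := hv3 (seg 0 e0 s) (by rw [h0]; exact hs.1) (by rw [h0]; exact hs.2) (by rw [h1, abs_zero]; exact hδ)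
        rw [h0] at this
        rw [grad_norm]
        exact this
    have i2 : ∫ x in B, ‖gradient v x‖ ^ 2 ∂(Measure.hausdorffMeasure 1) ≤ ∫ x, (k x * g x) ^ 2 ∂ν := by
      rw [hν, integral_map hz0m.aemeasurable hq2.aestronglyMeasurable]
      have hi4 : IntegrableOn (fun z : Pl => (k (z 0) * g (z 0)) ^ 2) B (Measure.hausdorffMeasure 1) := by
        obtain ⟨K0, hK0⟩ := (isCompact_Icc (a := (0:ℝ)) (b := 1)).exists_bound_of_continuousOn hq2.continuousOn
        refine Integrable.of_bound (hq2.comp z0_cont).aestronglyMeasurable K0 ?_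
        refine (ae_restrict_iff' hBm).2 (Eventually.of_forall fun z hz => ?_)
        have h3 : z ∉ Far δ := hz.2
        unfold Far at h3
        rw [mem_ofPred_eq] at h3
        push Not at h3
        exact hK0 (z 0) ⟨h3.1.le, h3.2.1.le⟩
      refine setIntegral_mono_on (hint.mono_set hBSg) hi4 hBm ?_
      intro z hz
      have h3 : z ∉ Far δ := hz.2
      unfold Far at h3
      rw [mem_ofPred_eq] at h3
      push Not at h3
      rw [grad_norm]
      exact hv3 z h3.1.le h3.2.1.le h3.2.2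
    have i3 : ∫ x in (Sg \ S0) ∩ Far δ, ‖gradient v x‖ ^ 2 ∂(Measure.hausdorffMeasure 1) ≤ C2 ^ 2 * ε0 := by
      have hsub2 : (Sg \ S0) ∩ Far δ ⊆ Sg ∩ Far δ := inter_subset_inter_left _ sdiff_subset
      have hf2 := hfin ((Sg \ S0) ∩ Far δ) (inter_subset_left.trans sdiff_subset)
      have hf3 := hfin (Sg ∩ Far δ) inter_subset_left
      have h1 : ∫ x in (Sg \ S0) ∩ Far δ, ‖gradient v x‖ ^ 2 ∂(Measure.hausdorffMeasure 1) ≤
          ∫ x in (Sg \ S0) ∩ Far δ, C2 ^ 2 ∂(Measure.hausdorffMeasure 1) := by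
        refine setIntegral_mono_on (hint.mono_set (inter_subset_left.trans sdiff_subset))
          (integrableOn_const hf2) ((hSg.diff hS0m).inter hFm) ?_
        intro z _
        rw [grad_norm]
        exact pow_le_pow_left₀ (norm_nonneg _) (hv1 z) 2
      rw [setIntegral_const, smul_eq_mul] at h1
      have h2 : (Measure.hausdorffMeasure 1 : Measure Pl).real ((Sg \ S0) ∩ Far δ) ≤ ε0 :=
        (ENNReal.toReal_mono hf3 (measure_mono hsub2)).trans hfar
      have h3 := mul_le_mul_of_nonneg_right h2 (sq_nonneg C2)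
      linarith
    have e3 : ∫ x, ‖gradient v x‖ ^ 2 ∂(Net Sg) =
        (∫ x in S0, ‖gradient v x‖ ^ 2 ∂(Measure.hausdorffMeasure 1)) +
        ((∫ x in (Sg \ S0) ∩ Far δ, ‖gradient v x‖ ^ 2 ∂(Measure.hausdorffMeasure 1)) +
        (∫ x in B, ‖gradient v x‖ ^ 2 ∂(Measure.hausdorffMeasure 1))) := by
      rw [hB, e2, e1]; rfl
    rw [e3]
    have hT : T u = ∫ x in Ioo (0:ℝ) 1, k x ^ 2 := rfl
    rw [hT]
    linarith
  -- load
  have hpair : pair load u - η' ≤ pair load v := by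
    have hp := fpos_prob
    obtain ⟨Cu, -, hCu, -⟩ := tbdd hu
    obtain ⟨Cv, -, hCv, -⟩ := tbdd hv
    have hiu : Integrable u fpos := Integrable.of_bound hu.1.continuous.aestronglyMeasurable Cu
      (Eventually.of_forall hCu)
    have hiv : Integrable v fpos := Integrable.of_bound hv.1.continuous.aestronglyMeasurable Cv
      (Eventually.of_forall hCv)
    have hm : Measurable fun z => u z - v z := (hu.1.continuous.sub hv.1.continuous).measurable
    have h1 := pair_osc (fun z => u z - v z) hm (hiu.sub hiv) η' (by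
        rintro _ ⟨s, hs, rfl⟩
        rw [hv5, sub_self, sub_zero, abs_sub_comm]
        exact hv4 s hs)
    rw [pair_load _ hm, integral_sub hiu hiv] at h1
    rw [pair_load _ hu.1.continuous.measurable, pair_load _ hv.1.continuous.measurable]
    have := (abs_le.1 h1).2
    linarith
  unfold J
  rw [set_int hv, set_int hv]
  linarith

end Pool.Agent.R223.Net
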