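import Mathlib
import Pool.Agent.R223.Net.Main

set_option autoImplicit false
open MeasureTheory Set Filter Topology Metric

namespace Pool.Agent.R223.Net
open Pool.Agent.R223.NetDefs

theorem S0_fin : IsFiniteMeasure (Net S0) :=
  net_finite (L := 1) (by rw [S0_len]; simp)

theorem mu0_finite : IsFiniteMeasure mu0 := by
  have := S0_fin
  unfold mu0
  refine ⟨?_⟩
  rw [Measure.smul_apply, smul_eq_mul]
  exact ENNReal.mul_lt_top ENNReal.ofReal_lt_top (measure_lt_top _ _)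

/-- portmanteau upper bound on closed sets -/
theorem port (S : ℕ → Set Pl) (hS : ∀ n, AdmRel Disc (3 / 2) (S n)) (hW : WeakConv S mu0)
    (F : Set Pl) (hF : IsClosed F) (y : ENNReal) (hy : mu0 F < y) :
    ∀ᶠ n in atTop, (Measure.hausdorffMeasure 1 : Measure Pl) (S n ∩ F) < y := by
  have hμ := mu0_finite
  have hfin : ∀ n, IsFiniteMeasure (Net (S n)) := fun n => net_finite (hS n).2
  let μs : ℕ → FiniteMeasure Pl := fun n => ⟨Net (S n), hfin n⟩
  let μ : FiniteMeasure Pl := ⟨mu0, hμ⟩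
  have ht : Tendsto μs atTop (𝓝 μ) := by
    rw [FiniteMeasure.tendsto_iff_forall_integral_tendsto]
    intro f
    exact hW ⟨f, f.continuous⟩
  have h1 := FiniteMeasure.limsup_measure_closed_le_of_tendsto ht hF
  have h2 := eventually_lt_of_limsup_lt (h1.trans_lt hy)
  filter_upwards [h2] with n hn
  have h3 : (μs n : Measure Pl) F = (Measure.hausdorffMeasure 1 : Measure Pl) (S n ∩ F) := by
    show Net (S n) F = _
    unfold Net
    rw [Measure.restrict_apply hF.measurableSet, inter_comm]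
  rwa [h3] at hn

theorem S0_inter (I : Set ℝ) : (Measure.hausdorffMeasure 1 : Measure Pl) (S0 ∩ {z | z 0 ∈ I}) =
    volume (Icc (0:ℝ) 1 ∩ I) := by
  have : S0 ∩ {z : Pl | z 0 ∈ I} = seg 0 e0 '' (Icc 0 1 ∩ I) := by
    ext z
    constructor
    · rintro ⟨⟨s, hs, rfl⟩, h2⟩
      have h0 : (seg 0 e0 s) 0 = s := by rw [seg_e0_0]; simp
      have h3 : (seg 0 e0 s) 0 ∈ I := h2
      rw [h0] at h3
      exact ⟨s, ⟨hs, h3⟩, rfl⟩
    · rintro ⟨s, ⟨hs, h3⟩, rfl⟩
      have h0 : (seg 0 e0 s) 0 = s := by rw [seg_e0_0]; simp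
      refine ⟨⟨s, hs, rfl⟩, ?_⟩
      show (seg 0 e0 s) 0 ∈ I
      rw [h0]; exact h3
  rw [this, meas_seg 0 e0 e0_norm]

theorem mu0_apply (F : Set Pl) (hF : MeasurableSet F) :
    mu0 F = ENNReal.ofReal (3 / 2) * (Measure.hausdorffMeasure 1 : Measure Pl) (S0 ∩ F) := by
  unfold mu0 Net
  rw [Measure.smul_apply, smul_eq_mul, Measure.restrict_apply hF, inter_comm]

theorem mu0_far (δ : ℝ) (hδ : 0 < δ) : mu0 (Far δ) = 0 := by
  rw [mu0_apply _ (Far_closed δ).measurableSet]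
  have h1 : S0 ∩ Far δ ⊆ S0 ∩ {z | z 0 ∈ ({0, 1} : Set ℝ)} := by
    rintro z ⟨⟨s, hs, rfl⟩, h2⟩
    refine ⟨⟨s, hs, rfl⟩, ?_⟩
    have h0 : (seg 0 e0 s) 0 = s := by rw [seg_e0_0]; simp
    have h4 : (seg 0 e0 s) 1 = 0 := by rw [seg_e0_1]; rfl
    show (seg 0 e0 s) 0 ∈ ({0, 1} : Set ℝ)
    unfold Far at h2
    rw [mem_ofPred_eq, h0, h4, abs_zero] at h2
    rw [h0]
    rcases h2 with h2 | h2 | h2
    · left; exact le_antisymm h2 hs.1
    · right; exact le_antisymm hs.2 h2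
    · exact absurd h2 (not_le.2 hδ)
  have h2 : (Measure.hausdorffMeasure 1 : Measure Pl) (S0 ∩ Far δ) = 0 := by
    refine measure_mono_null h1 ?_
    rw [S0_inter]
    refine measure_mono_null inter_subset_right ?_
    exact (Set.toFinite _).measure_zero _
  rw [h2, mul_zero]

theorem slab_vol (N j : ℕ) (hN : 1 ≤ N) (hj : j < N) :
    volume (Icc (0:ℝ) 1 ∩ Icc ((j : ℝ) / N) (((j : ℝ) + 1) / N)) = ENNReal.ofReal (1 / N) := by
  have hN0 : (0:ℝ) < N := by exact_mod_cast hN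
  have h1 : Icc ((j : ℝ) / N) (((j : ℝ) + 1) / N) ⊆ Icc (0:ℝ) 1 := by
    refine Icc_subset_Icc (by positivity) ?_
    rw [div_le_one hN0]
    exact_mod_cast hj
  rw [inter_eq_self_of_subset_right h1, Real.volume_Icc]
  congr 1
  field_simp
  ring

theorem slab_closed (N j : ℕ) : IsClosed {z : Pl | z 0 ∈ Icc ((j : ℝ) / N) (((j : ℝ) + 1) / N)} :=
  isClosed_Icc.preimage z0_cont

/-- the uniform energy gap -/
theorem gap (u : Pl → ℝ) (hu : IsTest Disc u) (η : ℝ) (hη : 0 < η)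
    (S : ℕ → Set Pl) (hS : ∀ n, AdmRel Disc (3 / 2) (S n)) (hW : WeakConv S mu0) :
    ∀ᶠ n in atTop, Energy Disc load 1 (Net (S n)) ≤
      ((1 / 2 * (∫ x, ‖gradient u x‖ ^ 2) + 27 / 40 * T u - pair load u + η : ℝ) : EReal) := by
  obtain ⟨N, hN, δ, ε0, hδ, hε0, hkey⟩ := key u hu η hη
  have hN0 : (0:ℝ) < N := by exact_mod_cast hN
  have hfar := port S hS hW (Far δ) (Far_closed δ) (ENNReal.ofReal ε0) (by
    rw [mu0_far δ hδ]; exact ENNReal.ofReal_pos.2 hε0)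
  have hslab : ∀ᶠ n in atTop, ∀ j ∈ Finset.range N, (Measure.hausdorffMeasure 1 : Measure Pl)
      (S n ∩ {z | z 0 ∈ Icc ((j : ℝ) / N) (((j : ℝ) + 1) / N)}) < ENNReal.ofReal ((151 / 100) / N) := by
    rw [Filter.eventually_all_finset]
    intro j hj
    refine port S hS hW _ (slab_closed N j) _ ?_
    rw [mu0_apply _ (slab_closed N j).measurableSet, S0_inter, slab_vol N j hN (Finset.mem_range.1 hj),
      ← ENNReal.ofReal_mul (by norm_num)]
    refine (ENNReal.ofReal_lt_ofReal_iff (by positivity)).2 ?_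
    rw [mul_one_div]
    exact div_lt_div_of_pos_right (by norm_num) hN0
  filter_upwards [hfar, hslab] with n h1 h2
  by_cases hE : Energy Disc load 1 (Net (S n)) = ⊥
  · rw [hE]; exact bot_le
  have hsub := contains_S0 (S n) (hS n) hE
  obtain ⟨⟨C, hC, hSC⟩, hlen⟩ := hS n
  have hSm : MeasurableSet (S n) := by
    rw [hSC]; exact hC.measurableSet.inter isOpen_ball.measurableSet
  obtain ⟨v, hv, hJ⟩ := hkey (S n) hSm hsub hlen (ENNReal.toReal_le_of_le_ofReal hε0.le h1.le) (by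
    intro j hj
    have h3 := h2 j (Finset.mem_range.2 hj)
    set I : Set Pl := {z | z 0 ∈ Icc ((j : ℝ) / N) (((j : ℝ) + 1) / N)} with hI
    have h4 := measure_inter_add_sdiff (μ := (Measure.hausdorffMeasure 1 : Measure Pl)) (S n ∩ I)
      S0_compact.isClosed.measurableSet
    have e1 : S n ∩ I ∩ S0 = S0 ∩ I := by
      ext z; constructor
      · rintro ⟨⟨_, b⟩, c⟩; exact ⟨c, b⟩
      · rintro ⟨a, b⟩; exact ⟨⟨hsub a, b⟩, a⟩
    have e2 : (S n ∩ I) \ S0 = (S n \ S0) ∩ I := by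
      ext z; constructor
      · rintro ⟨⟨a, b⟩, c⟩; exact ⟨⟨a, c⟩, b⟩
      · rintro ⟨⟨a, c⟩, b⟩; exact ⟨⟨a, b⟩, c⟩
    rw [e1, e2, S0_inter, slab_vol N j hN hj] at h4
    have h5 : (Measure.hausdorffMeasure 1 : Measure Pl) ((S n \ S0) ∩ I) ≠ ⊤ := by
      intro h6
      rw [h6, add_top] at h4
      rw [← h4] at h3
      exact absurd h3 (not_lt.2 le_top)
    have h6 : ENNReal.ofReal (1 / N) + (Measure.hausdorffMeasure 1 : Measure Pl) ((S n \ S0) ∩ I) ≤
        ENNReal.ofReal ((151 / 100) / N) := by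
      rw [h4]; exact h3.le
    have h7 := ENNReal.toReal_mono ENNReal.ofReal_ne_top h6
    rw [ENNReal.toReal_add ENNReal.ofReal_ne_top h5, ENNReal.toReal_ofReal (by positivity),
      ENNReal.toReal_ofReal (by positivity)] at h7
    have h8 : (151 / 100 : ℝ) / N = 1 / N + (51 / 100) / N := by rw [← add_div]; norm_num
    linarith)
  refine (iInf_le _ ⟨v, hv⟩).trans ?_
  exact EReal.coe_le_coe_iff.2 hJ

/-- strict gap for the limit measure -/
theorem strict_gap : ∃ u : Pl → ℝ, IsTest Disc u ∧ ∃ η : ℝ, 0 < η ∧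
    ((1 / 2 * (∫ x, ‖gradient u x‖ ^ 2) + 27 / 40 * T u - pair load u + η : ℝ) : EReal) <
      Energy Disc load 1 mu0 := by
  obtain ⟨E, hE0, hE⟩ := energy_mu0_neg
  rw [hE]
  by_contra hcon
  push Not at hcon
  have hlow : ∀ u : Pl → ℝ, IsTest Disc u → E ≤ 1 / 2 * (∫ x, ‖gradient u x‖ ^ 2) + 27 / 40 * T u - pair load u := by
    intro u hu
    refine le_of_forall_pos_le_add fun η hη => ?_
    have := hcon u hu η hη
    exact EReal.coe_le_coe_iff.1 this
  obtain ⟨ε, hε, hε1, hε2⟩ : ∃ ε : ℝ, 0 < ε ∧ ε ≤ -E / 2 ∧ 40 / 3 * ε ≤ E ^ 2 / 4 := by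
    refine ⟨min (-E / 2) (3 * E ^ 2 / 160), lt_min (by linarith) (by nlinarith [sq_pos_of_neg hE0]),
      min_le_left _ _, ?_⟩
    have := min_le_right (-E / 2) (3 * E ^ 2 / 160)
    linarith
  have h1 : Energy Disc load 1 mu0 < ((E + ε : ℝ) : EReal) := by
    rw [hE, EReal.coe_lt_coe_iff]; linarith
  obtain ⟨⟨u, hu⟩, h2⟩ := iInf_lt_iff.1 h1
  have h3 : J Disc load 1 mu0 u < E + ε := EReal.coe_lt_coe_iff.1 h2
  have h4 := J_mu0 hu
  have h5 := hlow u hu
  have h6 := pair_sq hu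
  have h7 := bulk_nonneg u volume
  have h8 := T_nonneg u
  have h9 : -E / 2 < pair load u := by linarith
  have h10 : (-E / 2) ^ 2 < pair load u ^ 2 := pow_lt_pow_left₀ h9 (by linarith) two_ne_zero
  nlinarith

end Pool.Agent.R223.Net
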