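import Mathlib
import Pool.Agent.R223.Net.Port

set_option autoImplicit false
open MeasureTheory Set Filter Topology Metric

namespace Pool.Agent.R223.Net
open Pool.Agent.R223.NetDefs

/-- a tooth of the comb -/
noncomputable def tooth (n j : ℕ) : Set Pl := seg (seg 0 e0 ((j : ℝ) / n)) e1 '' Icc 0 (1 / (2 * (n : ℝ)))

/-- a comb -/
noncomputable def comb (n : ℕ) (s : Finset ℕ) : Set Pl := S0 ∪ ⋃ j ∈ s, tooth n j

theorem tooth_compact (n j : ℕ) : IsCompact (tooth n j) := isCompact_Icc.image (seg_cont _ _)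

theorem comb_empty (n : ℕ) : comb n ∅ = S0 := by simp [comb]

theorem comb_insert (n a : ℕ) (s : Finset ℕ) : comb n (insert a s) = comb n s ∪ tooth n a := by
  unfold comb
  rw [Finset.set_biUnion_insert, ← union_assoc, union_right_comm]

theorem comb_compact (n : ℕ) (s : Finset ℕ) : IsCompact (comb n s) := by
  induction s using Finset.induction_on with
  | empty => rw [comb_empty]; exact S0_compact
  | insert a s ha ih => rw [comb_insert]; exact ih.union (tooth_compact n a)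

theorem base_mem_tooth (n a : ℕ) : seg 0 e0 ((a : ℝ) / n) ∈ tooth n a :=
  ⟨0, ⟨le_refl _, by positivity⟩, by simp [seg]⟩

theorem base_mem_S0 (n a : ℕ) (ha : a < n) : seg 0 e0 ((a : ℝ) / n) ∈ S0 := by
  have hn : (0:ℝ) < n := by exact_mod_cast (Nat.zero_le a).trans_lt ha
  refine ⟨_, ⟨by positivity, ?_⟩, rfl⟩
  rw [div_le_one hn]; exact_mod_cast ha.le

theorem comb_conn (n : ℕ) (s : Finset ℕ) (hs : ∀ j ∈ s, j < n) : IsConnected (comb n s) := by
  induction s using Finset.induction_on with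
  | empty =>
    rw [comb_empty]
    exact (isConnected_Icc (by norm_num)).image _ (seg_cont _ _).continuousOn
  | insert a s ha ih =>
    rw [comb_insert]
    refine IsConnected.union ⟨seg 0 e0 ((a : ℝ) / n), ?_, base_mem_tooth n a⟩ (ih fun j hj => hs j (Finset.mem_insert_of_mem hj))
      ((isConnected_Icc (by positivity)).image _ (seg_cont _ _).continuousOn)
    exact Or.inl (base_mem_S0 n a (hs a (Finset.mem_insert_self _ _)))

theorem comb_sub (n : ℕ) (s : Finset ℕ) (hs : ∀ j ∈ s, j < n) : comb n s ⊆ Disc := by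
  refine union_subset S0_sub (iUnion₂_subset fun j hj => ?_)
  rintro _ ⟨t, ht, rfl⟩
  have hn1 : 1 ≤ n := by have := hs j hj; omega
  have hn : (1:ℝ) ≤ n := by exact_mod_cast hn1
  have h1 : (j:ℝ) / n ≤ 1 := by
    rw [div_le_one (by linarith)]; exact_mod_cast (hs j hj).le
  have h2 : t ≤ 1 := by
    refine ht.2.trans ?_
    rw [div_le_one (by positivity)]; linarith
  unfold Disc
  rw [mem_ball_zero_iff]
  have h3 : 0 ≤ (j:ℝ) / n := by positivity
  have h4 : ‖seg (seg 0 e0 ((j : ℝ) / n)) e1 t‖ ≤ ‖seg 0 e0 ((j : ℝ) / n)‖ + ‖t • e1‖ := norm_add_le _ _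
  have h5 : ‖seg 0 e0 ((j : ℝ) / n)‖ ≤ 1 := by
    unfold seg
    rw [zero_add, norm_smul, e0_norm, mul_one, Real.norm_of_nonneg h3]
    exact h1
  have h6 : ‖t • e1‖ ≤ 1 := by
    rw [norm_smul, e1_norm, mul_one, Real.norm_of_nonneg ht.1]; exact h2
  linarith

theorem comb_inter (n : ℕ) (hn : 1 ≤ n) (s : Finset ℕ) (a : ℕ) (ha : a ∉ s) :
    comb n s ∩ tooth n a ⊆ {seg 0 e0 ((a : ℝ) / n)} := by
  rintro _ ⟨h1, ⟨t, ht, rfl⟩⟩
  have hn0 : (n:ℝ) ≠ 0 := by
    have : (0:ℝ) < n := by exact_mod_cast hn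
    exact this.ne'
  rcases h1 with ⟨r, hr, hrt⟩ | h1
  · have h2 := congrArg (fun z : Pl => z 1) hrt
    simp only [seg_e0_1, seg_e1_1] at h2
    have h3 : t = 0 := by
      have : (0:Pl) 1 = 0 := rfl
      rw [this] at h2; linarith
    rw [h3]; simp [seg]
  · exfalso
    simp only [mem_iUnion] at h1
    obtain ⟨j, hj, r, hr, hrt⟩ := h1
    have h2 := congrArg (fun z : Pl => z 0) hrt
    simp only [seg_e0_0, seg_e1_0] at h2
    have h3 : (j:ℝ) = a := by
      have h4 : (j:ℝ) / n = (a:ℝ) / n := by linarith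
      field_simp at h4
      exact h4
    have h5 : j = a := by exact_mod_cast h3
    exact ha (h5 ▸ hj)

theorem net_comb (n : ℕ) (hn : 1 ≤ n) (s : Finset ℕ) :
    Net (comb n s) = Net S0 + ∑ j ∈ s, Net (tooth n j) := by
  induction s using Finset.induction_on with
  | empty => rw [comb_empty]; simp
  | insert a s ha ih =>
    rw [comb_insert, Finset.sum_insert ha, add_comm (Net (tooth n a)), ← add_assoc, ← ih]
    unfold Net
    refine Measure.restrict_union₀ ?_ (tooth_compact n a).isClosed.measurableSet.nullMeasurableSet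
    exact measure_mono_null (comb_inter n hn s a ha) (by
      have := Measure.nullSingletonClass_hausdorff Pl (d := 1) one_pos
      exact measure_singleton _)

theorem net_tooth (n j : ℕ) : Net (tooth n j) univ = ENNReal.ofReal (1 / (2 * (n : ℝ))) := by
  unfold Net tooth
  rw [Measure.restrict_apply_univ, meas_seg _ _ e1_norm, Real.volume_Icc, sub_zero]

theorem comb_len (n : ℕ) (hn : 1 ≤ n) : (Measure.hausdorffMeasure 1 : Measure Pl) (comb n (Finset.range n)) ≤
    ENNReal.ofReal (3 / 2) := by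
  have hn0 : (0:ℝ) < n := by exact_mod_cast hn
  have h1 : (Measure.hausdorffMeasure 1 : Measure Pl) (comb n (Finset.range n)) =
      Net (comb n (Finset.range n)) univ := by
    unfold Net; rw [Measure.restrict_apply_univ]
  have h2 : Net S0 univ = 1 := by
    unfold Net; rw [Measure.restrict_apply_univ, S0_len]
  rw [h1, net_comb n hn, Measure.add_apply, Measure.finsetSum_apply, h2]
  simp only [net_tooth]
  rw [Finset.sum_const, Finset.card_range, nsmul_eq_mul, ← ENNReal.ofReal_natCast,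
    ← ENNReal.ofReal_mul (by positivity), ← ENNReal.ofReal_one, ← ENNReal.ofReal_add zero_le_one (by positivity)]
  refine ENNReal.ofReal_le_ofReal (le_of_eq ?_)
  field_simp
  norm_num

theorem comb_adm (n : ℕ) (hn : 1 ≤ n) : Adm Disc (3 / 2) (comb n (Finset.range n)) :=
  ⟨(comb_compact n _).isClosed, comb_conn n _ fun _ h => Finset.mem_range.1 h,
    comb_sub n _ fun _ h => Finset.mem_range.1 h, comb_len n hn⟩

theorem comb_int (n : ℕ) (hn : 1 ≤ n) (g : C(Pl, ℝ)) :
    ∫ x, g x ∂(Net (comb n (Finset.range n))) = (∫ s in (0:ℝ)..1, g (seg 0 e0 s)) +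
      ∑ j ∈ Finset.range n, ∫ t in (0:ℝ)..(1 / (2 * (n : ℝ))), g (seg (seg 0 e0 ((j : ℝ) / n)) e1 t) := by
  have hint : ∀ (p e : Pl) (he : ‖e‖ = 1) (a : ℝ), Integrable g (Net (seg p e '' Icc 0 a)) := by
    intro p e he a
    rw [net_seg p e he, (seg_emb p e he).integrable_map_iff]
    exact (g.continuous.comp (seg_cont p e)).continuousOn.integrableOn_compact isCompact_Icc
  have hfs : ∀ s : Finset ℕ, Integrable g (∑ j ∈ s, Net (tooth n j)) := by
    intro s
    rw [integrable_finsetSum_measure]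
    intro j _
    exact hint _ _ e1_norm _
  have hS0i : Integrable g (Net S0) := hint 0 e0 e0_norm 1
  rw [net_comb n hn, integral_add_measure hS0i (hfs _), integral_finsetSum_measure]
  · congr 1
    · unfold S0
      rw [int_seg 0 e0 e0_norm, intervalIntegral.integral_of_le zero_le_one, integral_Icc_eq_integral_Ioc]
    · refine Finset.sum_congr rfl fun j _ => ?_
      unfold tooth
      rw [int_seg _ _ e1_norm, intervalIntegral.integral_of_le (by positivity), integral_Icc_eq_integral_Ioc]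
  · intro j _
    exact hint _ _ e1_norm _

theorem comb_tendsto (g : C(Pl, ℝ)) (ε : ℝ) (hε : 0 < ε) : ∀ᶠ n : ℕ in atTop,
    |(∫ x, g x ∂(Net (comb n (Finset.range n)))) - ∫ x, g x ∂mu0| < ε := by
  have huc : UniformContinuousOn g (closedBall (0:Pl) 3) :=
    (isCompact_closedBall 0 3).uniformContinuousOn_of_continuous g.continuous.continuousOn
  rw [Metric.uniformContinuousOn_iff_le] at huc
  obtain ⟨d, hd, hmod⟩ := huc (ε / 2) (by positivity)
  obtain ⟨n0, hn0⟩ : ∃ n0 : ℕ, 1 / d < n0 := exists_nat_gt _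
  filter_upwards [eventually_ge_atTop (max 1 n0)] with n hn
  have hn1 : 1 ≤ n := (le_max_left _ _).trans hn
  have hnR : (1:ℝ) ≤ n := by exact_mod_cast hn1
  have hn' : (0:ℝ) < n := by linarith
  have hnd : 1 / (n:ℝ) ≤ d := by
    rw [div_le_iff₀ hn']
    have h1 : (n0:ℝ) ≤ n := by exact_mod_cast (le_max_right _ _).trans hn
    have h2 : 1 / d ≤ n := by linarith
    rw [div_le_iff₀ hd] at h2
    linarith
  set φ : ℝ → ℝ := fun s => g (seg 0 e0 s) with hφ
  have hφc : Continuous φ := g.continuous.comp (seg_cont 0 e0)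
  have hsplit : ∫ s in (0:ℝ)..1, φ s = ∑ j ∈ Finset.range n, ∫ s in ((j:ℝ) / n)..(((j + 1 : ℕ) : ℝ) / n), φ s := by
    have h := intervalIntegral.sum_integral_adjacent_intervals (f := φ) (μ := volume) (n := n)
      (a := fun j : ℕ => (j:ℝ) / n) (fun j _ => hφc.intervalIntegrable _ _)
    rw [h]
    simp [hn'.ne']
  have hmu : ∫ x, g x ∂mu0 = 3 / 2 * ∫ s in (0:ℝ)..1, φ s := by
    rw [mu0_int]
    unfold S0
    rw [int_seg 0 e0 e0_norm, intervalIntegral.integral_of_le zero_le_one, integral_Icc_eq_integral_Ioc]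
  rw [comb_int n hn1 g, hmu]
  have hdec : (∫ s in (0:ℝ)..1, g (seg 0 e0 s)) +
      (∑ j ∈ Finset.range n, ∫ t in (0:ℝ)..(1 / (2 * (n : ℝ))), g (seg (seg 0 e0 ((j : ℝ) / n)) e1 t)) -
      3 / 2 * ∫ s in (0:ℝ)..1, φ s =
      ∑ j ∈ Finset.range n, ((∫ t in (0:ℝ)..(1 / (2 * (n : ℝ))), (g (seg (seg 0 e0 ((j : ℝ) / n)) e1 t) - φ (j / n))) -
        1 / 2 * ∫ s in ((j:ℝ) / n)..(((j + 1 : ℕ) : ℝ) / n), (φ s - φ (j / n))) := by
    have e2 : ∀ j ∈ Finset.range n, ((∫ t in (0:ℝ)..(1 / (2 * (n : ℝ))), (g (seg (seg 0 e0 ((j : ℝ) / n)) e1 t) - φ (j / n))) -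
        1 / 2 * ∫ s in ((j:ℝ) / n)..(((j + 1 : ℕ) : ℝ) / n), (φ s - φ (j / n))) =
        (∫ t in (0:ℝ)..(1 / (2 * (n : ℝ))), g (seg (seg 0 e0 ((j : ℝ) / n)) e1 t)) -
        1 / 2 * ∫ s in ((j:ℝ) / n)..(((j + 1 : ℕ) : ℝ) / n), φ s := by
      intro j _
      have ii : IntervalIntegrable (fun t => g (seg (seg 0 e0 ((j : ℝ) / n)) e1 t)) volume 0 (1 / (2 * (n : ℝ))) :=
        (g.continuous.comp (seg_cont _ _)).intervalIntegrable _ _
      rw [intervalIntegral.integral_sub ii intervalIntegrable_const, intervalIntegral.integral_sub (hφc.intervalIntegrable _ _)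
        intervalIntegrable_const, intervalIntegral.integral_const, intervalIntegral.integral_const]
      push_cast
      simp only [smul_eq_mul]
      field_simp
      ring
    rw [Finset.sum_congr rfl e2, Finset.sum_sub_distrib, ← Finset.mul_sum, ← hsplit]
    ring
  rw [hdec]
  have hj : ∀ j ∈ Finset.range n, |(∫ t in (0:ℝ)..(1 / (2 * (n : ℝ))), (g (seg (seg 0 e0 ((j : ℝ) / n)) e1 t) - φ (j / n))) -
        1 / 2 * ∫ s in ((j:ℝ) / n)..(((j + 1 : ℕ) : ℝ) / n), (φ s - φ (j / n))| ≤ (ε / 2) / n := by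
    intro j hj
    rw [Finset.mem_range] at hj
    have hj1 : (j:ℝ) + 1 ≤ n := by exact_mod_cast hj
    have hjn0 : 0 ≤ (j:ℝ) / n := by positivity
    have hjn1 : (j:ℝ) / n ≤ 1 := by rw [div_le_one hn']; linarith
    have hmem : ∀ s : ℝ, 0 ≤ s → s ≤ 1 → seg 0 e0 s ∈ closedBall (0:Pl) 3 := by
      intro s h0 h1
      rw [mem_closedBall_zero_iff]
      unfold seg
      rw [zero_add, norm_smul, e0_norm, mul_one, Real.norm_of_nonneg h0]
      linarith
    have hh : 1 / (2 * (n:ℝ)) ≤ 1 / n := one_div_le_one_div_of_le hn' (by linarith)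
    have hn1' : 1 / (n:ℝ) ≤ 1 := by rw [div_le_one hn']; exact hnR
    have b1 : |∫ t in (0:ℝ)..(1 / (2 * (n : ℝ))), (g (seg (seg 0 e0 ((j : ℝ) / n)) e1 t) - φ (j / n))| ≤
        (ε / 2) * (1 / (2 * (n:ℝ))) := by
      have := intervalIntegral.norm_integral_le_of_norm_le_const (a := 0) (b := 1 / (2 * (n:ℝ)))
        (f := fun t => g (seg (seg 0 e0 ((j : ℝ) / n)) e1 t) - φ (j / n)) (C := ε / 2) (fun t ht => ?_)
      · rw [sub_zero, abs_of_nonneg (by positivity : 0 ≤ 1 / (2 * (n:ℝ)))] at this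
        exact this
      · rw [uIoc_of_le (by positivity)] at ht
        have ht0 : 0 ≤ t := ht.1.le
        have ht1 : t ≤ 1 := ht.2.trans (hh.trans hn1')
        have hm2 : seg (seg 0 e0 ((j : ℝ) / n)) e1 t ∈ closedBall (0:Pl) 3 := by
          rw [mem_closedBall_zero_iff]
          have h4 : ‖seg (seg 0 e0 ((j : ℝ) / n)) e1 t‖ ≤ ‖seg 0 e0 ((j : ℝ) / n)‖ + ‖t • e1‖ := norm_add_le _ _
          have h5 : ‖seg 0 e0 ((j : ℝ) / n)‖ ≤ 1 := by
            unfold seg
            rw [zero_add, norm_smul, e0_norm, mul_one, Real.norm_of_nonneg hjn0]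
            exact hjn1
          have h6 : ‖t • e1‖ ≤ 1 := by
            rw [norm_smul, e1_norm, mul_one, Real.norm_of_nonneg ht0]; exact ht1
          linarith
        have hdist : dist (seg (seg 0 e0 ((j : ℝ) / n)) e1 t) (seg 0 e0 ((j : ℝ) / n)) ≤ d := by
          rw [dist_eq_norm]
          have : seg (seg 0 e0 ((j : ℝ) / n)) e1 t - seg 0 e0 ((j : ℝ) / n) = t • e1 := by
            show seg 0 e0 ((j : ℝ) / n) + t • e1 - seg 0 e0 ((j : ℝ) / n) = t • e1
            abel
          rw [this, norm_smul, e1_norm, mul_one, Real.norm_of_nonneg ht0]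
          exact ht.2.trans (hh.trans hnd)
        exact hmod _ hm2 _ (hmem _ hjn0 hjn1) hdist
    have b2 : |∫ s in ((j:ℝ) / n)..(((j + 1 : ℕ) : ℝ) / n), (φ s - φ (j / n))| ≤ (ε / 2) * (1 / (n:ℝ)) := by
      have hle : (j:ℝ) / n ≤ ((j + 1 : ℕ) : ℝ) / n := by
        push_cast
        exact div_le_div_of_nonneg_right (by linarith) hn'.le
      have hlen : ((j + 1 : ℕ) : ℝ) / n - (j:ℝ) / n = 1 / n := by push_cast; field_simp; ring
      have := intervalIntegral.norm_integral_le_of_norm_le_const (a := (j:ℝ) / n) (b := ((j + 1 : ℕ) : ℝ) / n)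
        (f := fun s => φ s - φ (j / n)) (C := ε / 2) (fun s hs => ?_)
      · rw [hlen, abs_of_nonneg (by positivity : 0 ≤ 1 / (n:ℝ))] at this
        exact this
      · rw [uIoc_of_le hle] at hs
        have hs1 : s ≤ 1 := by
          refine hs.2.trans ?_
          rw [div_le_one hn']
          push_cast
          exact hj1
        have hs0 : 0 ≤ s := hjn0.trans hs.1.le
        have hdist : dist (seg 0 e0 s) (seg 0 e0 ((j : ℝ) / n)) ≤ d := by
          rw [(seg_iso 0 e0 e0_norm).dist_eq, Real.dist_eq, abs_of_nonneg (by linarith [hs.1])]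
          have : s - (j:ℝ) / n ≤ 1 / n := by rw [← hlen]; linarith [hs.2]
          linarith
        exact hmod _ (hmem s hs0 hs1) _ (hmem _ hjn0 hjn1) hdist
    have b3 := abs_sub (∫ t in (0:ℝ)..(1 / (2 * (n : ℝ))), (g (seg (seg 0 e0 ((j : ℝ) / n)) e1 t) - φ (j / n)))
      (1 / 2 * ∫ s in ((j:ℝ) / n)..(((j + 1 : ℕ) : ℝ) / n), (φ s - φ (j / n)))
    rw [abs_mul, abs_of_nonneg (by norm_num : (0:ℝ) ≤ 1 / 2)] at b3
    have b4 : (ε / 2) * (1 / (2 * (n:ℝ))) + 1 / 2 * ((ε / 2) * (1 / (n:ℝ))) = (ε / 2) / n := by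
      field_simp; ring
    linarith
  calc |∑ j ∈ Finset.range n, ((∫ t in (0:ℝ)..(1 / (2 * (n : ℝ))), (g (seg (seg 0 e0 ((j : ℝ) / n)) e1 t) - φ (j / n))) -
        1 / 2 * ∫ s in ((j:ℝ) / n)..(((j + 1 : ℕ) : ℝ) / n), (φ s - φ (j / n)))| ≤ _ :=
        Finset.abs_sum_le_sum_abs _ _
    _ ≤ ∑ j ∈ Finset.range n, (ε / 2) / n := Finset.sum_le_sum hj
    _ = ε / 2 := by
      rw [Finset.sum_const, Finset.card_range, nsmul_eq_mul]
      field_simp
    _ < ε := by linarith

theorem relaxed_mu0 : Relaxed Disc (3 / 2) mu0 := by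
  refine ⟨mu0_finite, ?_, ?_⟩
  · rw [mu0_apply _ isClosed_closure.measurableSet.compl]
    have : S0 ∩ (closure Disc)ᶜ = ∅ := by
      ext z
      simp only [mem_inter_iff, mem_compl_iff, mem_empty_iff_false, iff_false, not_and, not_not]
      exact fun h => subset_closure (S0_sub h)
    rw [this, measure_empty, mul_zero]
  · intro G ε hε
    have h1 : ∀ᶠ n : ℕ in atTop, ∀ g ∈ G,
        |(∫ x, g x ∂(Net (comb n (Finset.range n)))) - ∫ x, g x ∂mu0| < ε := by
      rw [Filter.eventually_all_finset]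
      intro g _
      exact comb_tendsto g ε hε
    obtain ⟨n, hn, hn1⟩ := (h1.and (eventually_ge_atTop 1)).exists
    exact ⟨_, comb_adm n hn1, hn⟩

end Pool.Agent.R223.Net
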